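import Pool.Agent.Lib.SD.Blue

/-! Subexponential decay for discrete subgroups of `GL n K`, `K` non-archimedean: statements. -/

noncomputable section

open Finset

namespace Pool.Agent.Lib.SDP

open Pool.Agent.Lib.U4 Pool.Agent.Lib.SD

/-- A group acting on a join semilattice with an additive size function. -/
structure JGeo {Γ X : Type} [Group Γ] [MulAction Γ X] [SemilatticeSup X] (sz : X → X → ℝ)
    (o : X) (B : ℝ → Set Γ) : Prop where
  mono : ∀ (g : Γ) (x y : X), x ≤ y → g • x ≤ g • y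
  nn : ∀ c x, x ≤ c → 0 ≤ sz c x
  inv : ∀ (g : Γ) c x, sz (g • c) (g • x) = sz c x
  add : ∀ c b x, x ≤ b → b ≤ c → sz c x = sz c b + sz b x
  symm : ∀ r g, g ∈ B r → g⁻¹ ∈ B r
  grow : ∃ C₁ C₂ : ℝ, 0 < C₁ ∧ 0 ≤ C₂ ∧ ∀ (c : X) (F : Finset X), (∀ b ∈ F, b ≤ c) →
    ∑ b ∈ F, Real.exp (-(C₁ * sz c b)) ≤ Real.exp C₂
  stab : ∃ M : ℝ, 0 ≤ M ∧ ∀ x : X, ∃ F : Finset Γ, (F.card : ℝ) ≤ Real.exp M ∧
    ∀ g : Γ, g • x = x → g ∈ F
  red : ∃ L : ℝ, 0 < L ∧ ∀ ε : ℝ, 0 < ε → ∃ r₀ : ℝ, ∀ r, r₀ ≤ r → ∃ S : Γ → Finset X,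
    (∀ x, ((S x).card : ℝ) ≤ Real.exp (ε * r)) ∧ ∀ x y : Γ, x⁻¹ * y ∈ B r →
      ∃ b ∈ S x, b ∈ S y ∧ x • o ≤ b ∧ y • o ≤ b ∧ sz b (x • o) ≤ L * r ∧ sz b (y • o) ≤ L * r

/-- The entropy theorem for join semilattices. -/
def St_J : Prop := ∀ {Γ X : Type} [Group Γ] [MulAction Γ X] [SemilatticeSup X] (sz : X → X → ℝ)
  (o : X) (B : ℝ → Set Γ), JGeo sz o B →
    ∀ δ : ℝ, 0 < δ → ∃ r₀ : ℝ, ∀ r, r₀ ≤ r → Exc (B r) (δ * r)

section Lat

variable {K : Type} [NontriviallyNormedField K] {n : ℕ}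

/-- An open bounded additive subgroup stable under scalars of norm at most one. -/
structure IsLat (L : AddSubgroup (Fin n → K)) : Prop where
  op : ∃ ρ : ℝ, 0 < ρ ∧ ∀ v, ‖v‖ ≤ ρ → v ∈ L
  bd : ∃ R : ℝ, ∀ v ∈ L, ‖v‖ ≤ R
  st : ∀ a : K, ‖a‖ ≤ 1 → ∀ v ∈ L, a • v ∈ L

lemma IsLat.sup {L M : AddSubgroup (Fin n → K)} (hL : IsLat L) (hM : IsLat M) : IsLat (L ⊔ M) := by
  obtain ⟨ρ, h1, h2⟩ := hL.op
  obtain ⟨R, h3⟩ := hL.bd
  obtain ⟨R', h4⟩ := hM.bd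
  refine ⟨⟨ρ, h1, fun v hv => AddSubgroup.mem_sup_left (h2 v hv)⟩, ⟨R + R', fun v hv => ?_⟩,
    fun a ha v hv => ?_⟩
  · obtain ⟨y, hy, z, hz, rfl⟩ := AddSubgroup.mem_sup.1 hv
    exact (norm_add_le _ _).trans (add_le_add (h3 y hy) (h4 z hz))
  · obtain ⟨y, hy, z, hz, rfl⟩ := AddSubgroup.mem_sup.1 hv
    rw [smul_add]
    exact AddSubgroup.add_mem_sup (hL.st a ha y hy) (hM.st a ha z hz)

/-- The action of a matrix on vectors. -/
def act (g : GL (Fin n) K) : (Fin n → K) →+ (Fin n → K) := g.val.mulVecLin.toAddMonoidHom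

lemma act_apply (g : GL (Fin n) K) (v : Fin n → K) : act g v = g.val.mulVec v := rfl

lemma act_mul (g h : GL (Fin n) K) (v : Fin n → K) : act (g * h) v = act g (act h v) := by
  simp [act_apply, Matrix.mulVec_mulVec]

lemma act_one (v : Fin n → K) : act (1 : GL (Fin n) K) v = v := by simp [act_apply]

lemma act_smul (g : GL (Fin n) K) (a : K) (v : Fin n → K) : act g (a • v) = a • act g v := by
  simp [act_apply, Matrix.mulVec_smul]

lemma act_inv_act (g : GL (Fin n) K) (v : Fin n → K) : act g⁻¹ (act g v) = v := by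
  rw [← act_mul, inv_mul_cancel, act_one]

lemma act_act_inv (g : GL (Fin n) K) (v : Fin n → K) : act g (act g⁻¹ v) = v := by
  rw [← act_mul, mul_inv_cancel, act_one]

lemma act_bd (g : GL (Fin n) K) : ∃ C : ℝ, 0 < C ∧ ∀ v, ‖act g v‖ ≤ C * ‖v‖ := by
  refine ⟨∑ i, ∑ j, ‖g.val i j‖ + 1, by positivity, fun v => ?_⟩
  refine (pi_norm_le_iff_of_nonneg (by positivity)).2 fun i => ?_
  rw [act_apply, Matrix.mulVec, dotProduct]
  refine (norm_sum_le _ _).trans ?_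
  calc ∑ j, ‖g.val i j * v j‖ ≤ ∑ j, ‖g.val i j‖ * ‖v‖ := sum_le_sum fun j _ => by
        rw [norm_mul]; exact mul_le_mul_of_nonneg_left (norm_le_pi_norm v j) (norm_nonneg _)
    _ = (∑ j, ‖g.val i j‖) * ‖v‖ := by rw [sum_mul]
    _ ≤ _ := by
        refine mul_le_mul_of_nonneg_right ?_ (norm_nonneg _)
        have := single_le_sum (f := fun i => ∑ j, ‖g.val i j‖) (fun i _ => by positivity)
          (mem_univ i)
        linarith

lemma IsLat.comap {L : AddSubgroup (Fin n → K)} (hL : IsLat L) (g : GL (Fin n) K) :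
    IsLat (L.comap (act g)) := by
  obtain ⟨ρ, h1, h2⟩ := hL.op
  obtain ⟨R, h3⟩ := hL.bd
  obtain ⟨C, hC, h4⟩ := act_bd g
  obtain ⟨C', hC', h5⟩ := act_bd g⁻¹
  refine ⟨⟨ρ / C, by positivity, fun v hv => h2 _ ((h4 v).trans ?_)⟩, ⟨C' * R, fun v hv => ?_⟩,
    fun a ha v hv => ?_⟩
  · rwa [le_div_iff₀' hC] at hv
  · have := h5 (act g v)
    rw [act_inv_act] at this
    exact this.trans (mul_le_mul_of_nonneg_left (h3 _ hv) hC'.le)
  · change act g (a • v) ∈ L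
    rw [act_smul]
    exact hL.st a ha _ hv

variable (K n) in
/-- The set of lattices. -/
def Lat : Type := {L : AddSubgroup (Fin n → K) // IsLat L}

instance : SemilatticeSup (Lat K n) := Subtype.semilatticeSup fun _ _ => IsLat.sup

lemma le_iff (x y : Lat K n) : x ≤ y ↔ ∀ v ∈ x.1, v ∈ y.1 := Iff.rfl

instance : MulAction (GL (Fin n) K) (Lat K n) where
  smul g L := ⟨L.1.comap (act g⁻¹), L.2.comap _⟩
  one_smul L := Subtype.ext (AddSubgroup.ext fun v => by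
    change act (1 : GL (Fin n) K)⁻¹ v ∈ L.1 ↔ _
    rw [inv_one, act_one])
  mul_smul g h L := Subtype.ext (AddSubgroup.ext fun v => by
    change act (g * h)⁻¹ v ∈ L.1 ↔ act h⁻¹ (act g⁻¹ v) ∈ L.1
    rw [mul_inv_rev, act_mul])

lemma mem_smul (g : GL (Fin n) K) (L : Lat K n) (v : Fin n → K) :
    v ∈ (g • L).1 ↔ act g⁻¹ v ∈ L.1 := Iff.rfl

/-- The logarithm of the index of `x` in `c`. -/
def sz (c x : Lat K n) : ℝ := Real.log (x.1.relIndex c.1)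

variable [IsUltrametricDist K]

/-- The box with radii `ρ` in the coordinates given by the columns of `k`. -/
def box (k : GL (Fin n) K) (ρ : Fin n → ℝ) (h : ∀ i, 0 < ρ i) : Lat K n :=
  k • ⟨{ carrier := {v | ∀ i, ‖v i‖ ≤ ρ i}
         zero_mem' := fun i => by simpa using (h i).le
         add_mem' := fun ha hb i =>
           (IsUltrametricDist.norm_add_le_max _ _).trans (max_le (ha i) (hb i))
         neg_mem' := fun ha i => by simpa using ha i },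
    ⟨⟨(∑ i, (ρ i)⁻¹ + 1)⁻¹, inv_pos.2 (add_pos_of_nonneg_of_pos
          (sum_nonneg fun i _ => (inv_pos.2 (h i)).le) one_pos),
        fun v hv i => by
          refine (norm_le_pi_norm v i).trans (hv.trans ?_)
          have h1 := single_le_sum (f := fun i => (ρ i)⁻¹) (fun i _ => (inv_pos.2 (h i)).le)
            (mem_univ i)
          rw [inv_le_comm₀ (by have := inv_pos.2 (h i); linarith) (h i)]
          linarith⟩,
      ⟨∑ i, ρ i, fun v hv => (pi_norm_le_iff_of_nonneg (sum_nonneg fun i _ => (h i).le)).2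
        fun i => (hv i).trans (single_le_sum (fun i _ => (h i).le) (mem_univ i))⟩,
      fun a ha v hv i => by
        rw [Pi.smul_apply, norm_smul]
        exact (mul_le_of_le_one_left (norm_nonneg _) ha).trans (hv i)⟩⟩

lemma mem_box (k : GL (Fin n) K) (ρ : Fin n → ℝ) (h : ∀ i, 0 < ρ i) (v : Fin n → K) :
    v ∈ (box k ρ h).1 ↔ ∀ i, ‖act k⁻¹ v i‖ ≤ ρ i := Iff.rfl

variable (K n) in
/-- The standard lattice. -/
def std : Lat K n := box 1 (fun _ => 1) fun _ => one_pos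

lemma mem_std (v : Fin n → K) : v ∈ (std K n).1 ↔ ‖v‖ ≤ 1 := by
  rw [std, mem_box, inv_one, act_one, pi_norm_le_iff_of_nonneg zero_le_one]

end Lat

/-- Indices of lattices. -/
def St_IDX : Prop := ∀ (K : Type) [NontriviallyNormedField K] [IsUltrametricDist K]
  [ProperSpace K] (n : ℕ),
  (∀ c x : Lat K n, x.1.relIndex c.1 ≠ 0) ∧
  (∀ (g : GL (Fin n) K) (c x : Lat K n), (g • x).1.relIndex (g • c).1 = x.1.relIndex c.1) ∧
  ∀ ϖ : K, ϖ ≠ 0 → ‖ϖ‖ ≤ 1 → ∃ D : ℕ, ∀ (c x : Lat K n) (m : ℕ),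
    (∀ v ∈ c.1, ϖ ^ m • v ∈ x.1) → x.1.relIndex c.1 ≤ D ^ m

/-- Counting sublattices. -/
def St_CNT : Prop := ∀ (K : Type) [NontriviallyNormedField K] [IsUltrametricDist K]
  [ProperSpace K] (n : ℕ), ∃ C₁ C₂ : ℝ, 0 < C₁ ∧ 0 ≤ C₂ ∧ ∀ (c : Lat K n) (F : Finset (Lat K n)),
    (∀ b ∈ F, b ≤ c) → ∑ b ∈ F, Real.exp (-(C₁ * sz c b)) ≤ Real.exp C₂

/-- Stabilisers of lattices in discrete groups are finite, of bounded order in characteristic
zero. -/
structure St_STAB : Prop where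
  fin : ∀ (K : Type) [NontriviallyNormedField K] [IsUltrametricDist K] [ProperSpace K] (n : ℕ)
    (Γ : Subgroup (GL (Fin n) K)), DiscreteTopology Γ → ∀ x : Lat K n,
      {g : Γ | (g : GL (Fin n) K) • x = x}.Finite
  mink : ∀ (K : Type) [NontriviallyNormedField K] [IsUltrametricDist K] [ProperSpace K]
    [CharZero K] (n : ℕ), ∃ M : ℕ, ∀ (x : Lat K n) (F : Subgroup (GL (Fin n) K)), Finite F →
      (∀ g ∈ F, g • x = x) → Nat.card F ≤ M

/-- Integral Cartan decomposition. -/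
def St_ICD : Prop := ∀ (K : Type) [NontriviallyNormedField K] [IsUltrametricDist K] (n : ℕ)
  (g : GL (Fin n) K), ∃ (k k' : GL (Fin n) K) (d : Fin n → K) (hd : ∀ i, d i ≠ 0),
    Kc 1 k ∧ Kc 1 k' ∧ g = k * dg d hd * k'

/-- A common point of the hulls of two close lattices. -/
def St_LOC : Prop := ∀ (K : Type) [NontriviallyNormedField K] [IsUltrametricDist K] (n : ℕ)
  (ϖ : K), ϖ ≠ 0 → ‖ϖ‖ < 1 → ∀ s : ℕ, ∃ S : GL (Fin n) K → Finset (Lat K n),
    (∀ x, (S x).card ≤ (2 * n * (s + 1) + 2) ^ n) ∧ ∀ x y : GL (Fin n) K,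
      Kc (‖ϖ‖⁻¹ ^ s) (x⁻¹ * y) → ∃ b ∈ S x, b ∈ S y ∧ x • std K n ≤ b ∧ y • std K n ≤ b ∧
        (∀ v ∈ b.1, ϖ ^ (2 * n * (s + 1) + 1) • v ∈ (x • std K n).1) ∧
        ∀ v ∈ b.1, ϖ ^ (2 * n * (s + 1) + 1) • v ∈ (y • std K n).1

end Pool.Agent.Lib.SDP
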