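import Pool.Agent.Lib.SDP.Blue

/-! Counting sublattices. -/

noncomputable section

open Finset

namespace Pool.Agent.Lib.SDP

namespace CNT

variable {K : Type} [NontriviallyNormedField K] {n : ℕ}

/-- The lattice `ϖ c`. -/
def sc (ϖ : K) (h : ϖ ≠ 0) (c : Lat K n) : Lat K n :=
  ⟨{ carrier := {v | ϖ⁻¹ • v ∈ c.1}
     zero_mem' := by simp
     add_mem' := fun {a b} ha hb => by
       change ϖ⁻¹ • (a + b) ∈ c.1
       rw [smul_add]
       exact c.1.add_mem ha hb
     neg_mem' := fun {a} ha => by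
       change ϖ⁻¹ • (-a) ∈ c.1
       rw [smul_neg]
       exact c.1.neg_mem ha }, by
    obtain ⟨ρ, h1, h2⟩ := c.2.op
    obtain ⟨R, h3⟩ := c.2.bd
    have hp : 0 < ‖ϖ‖ := norm_pos_iff.2 h
    refine ⟨⟨‖ϖ‖ * ρ, by positivity, fun v hv => h2 _ ?_⟩, ⟨‖ϖ‖ * R, fun v hv => ?_⟩,
      fun a ha v hv => ?_⟩
    · rw [norm_smul, norm_inv, inv_mul_le_iff₀ hp]
      exact hv
    · have := h3 _ hv
      rwa [norm_smul, norm_inv, inv_mul_le_iff₀ hp] at this
    · change ϖ⁻¹ • a • v ∈ c.1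
      rw [smul_comm]
      exact c.2.st a ha _ hv⟩

lemma mem_sc (ϖ : K) (h : ϖ ≠ 0) (c : Lat K n) (v : Fin n → K) :
    v ∈ (sc ϖ h c).1 ↔ ϖ⁻¹ • v ∈ c.1 := Iff.rfl

lemma sc_le (ϖ : K) (h : ϖ ≠ 0) (h1 : ‖ϖ‖ ≤ 1) (c : Lat K n) : sc ϖ h c ≤ c := fun v hv => by
  have := c.2.st ϖ h1 _ ((mem_sc ϖ h c v).1 hv)
  rwa [smul_inv_smul₀ h] at this

/-- Nakayama. -/
lemma nak (ϖ : K) (h : ϖ ≠ 0) (h1 : ‖ϖ‖ < 1) (b c : Lat K n) (hc : c ≤ b ⊔ sc ϖ h c) :
    c ≤ b := by
  have key : ∀ j : ℕ, ∀ v ∈ c.1, ∃ w ∈ c.1, v - ϖ ^ j • w ∈ b.1 := by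
    intro j
    induction j with
    | zero => exact fun v hv => ⟨v, hv, by simp⟩
    | succ j ih =>
      intro v hv
      obtain ⟨w, hw, h2⟩ := ih v hv
      obtain ⟨y, hy, z, hz, rfl⟩ := AddSubgroup.mem_sup.1 (hc hw)
      refine ⟨ϖ⁻¹ • z, hz, ?_⟩
      have e : v - ϖ ^ (j + 1) • ϖ⁻¹ • z = (v - ϖ ^ j • (y + z)) + ϖ ^ j • y := by
        rw [pow_succ, mul_smul, smul_inv_smul₀ h, smul_add]
        abel
      rw [e]
      refine b.1.add_mem h2 (b.2.st _ ?_ _ hy)
      rw [norm_pow]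
      exact pow_le_one₀ (norm_nonneg _) h1.le
  obtain ⟨ρ, h2, h3⟩ := b.2.op
  obtain ⟨R, h4⟩ := c.2.bd
  have hR : 0 ≤ R := by simpa using h4 0 c.1.zero_mem
  obtain ⟨j, hj⟩ := exists_pow_lt_of_lt_one (show 0 < ρ / (R + 1) by positivity) h1
  intro v hv
  obtain ⟨w, hw, h5⟩ := key j v hv
  have h6 : ϖ ^ j • w ∈ b.1 := by
    refine h3 _ ?_
    rw [norm_smul, norm_pow]
    rw [lt_div_iff₀ (by positivity)] at hj
    have h7 := h4 w hw
    have h8 : 0 ≤ ‖ϖ‖ ^ j := by positivity
    nlinarith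
  have := b.1.add_mem h5 h6
  rwa [sub_add_cancel] at this

/-- The number of lattices between `p` and `c`. -/
lemma card_between (p c : Lat K n) (hp : p.1.relIndex c.1 ≠ 0) (T : Finset (Lat K n))
    (hT : ∀ b ∈ T, p ≤ b ∧ b ≤ c) : T.card ≤ 2 ^ p.1.relIndex c.1 := by
  classical
  have hf : Finite (c.1 ⧸ p.1.addSubgroupOf c.1) := Nat.finite_of_card_ne_zero hp
  let _ := Fintype.ofFinite (c.1 ⧸ p.1.addSubgroupOf c.1)
  have e : p.1.relIndex c.1 = Fintype.card (c.1 ⧸ p.1.addSubgroupOf c.1) :=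
    Nat.card_eq_fintype_card
  rw [e, ← Fintype.card_set, ← Finset.card_univ]
  let f : Lat K n → Set (c.1 ⧸ p.1.addSubgroupOf c.1) := fun b =>
    {q | ∃ v : c.1, v.1 ∈ b.1 ∧ (QuotientAddGroup.mk v : c.1 ⧸ p.1.addSubgroupOf c.1) = q}
  have h1 : ∀ b ∈ T, ∀ b' ∈ T, f b = f b' → b ≤ b' := by
    intro b hb b' hb' hf v hv
    have h2 : (QuotientAddGroup.mk (⟨v, (hT b hb).2 hv⟩ : c.1) :
      c.1 ⧸ p.1.addSubgroupOf c.1) ∈ f b := ⟨_, hv, rfl⟩
    rw [hf] at h2
    obtain ⟨w, hw, h3⟩ := h2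
    rw [QuotientAddGroup.eq, AddSubgroup.mem_addSubgroupOf] at h3
    have h4 := b'.1.add_mem hw ((hT b' hb').1 h3)
    simpa using h4
  exact Finset.card_le_card_of_injOn f (fun _ _ => Finset.mem_univ _)
    fun b hb b' hb' hf => le_antisymm (h1 b hb b' hb' hf) (h1 b' hb' b hb hf.symm)

end CNT

open CNT in
theorem stCNT (hI : St_IDX) : St_CNT := by
  intro K _ _ _ n
  classical
  obtain ⟨h0, -, h3⟩ := hI K n
  obtain ⟨ϖ, hp, h1⟩ := NormedField.exists_norm_lt_one K
  have h : ϖ ≠ 0 := norm_pos_iff.1 hp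
  obtain ⟨D, hD⟩ := h3 ϖ h h1.le
  have hD1 : ∀ c : Lat K n, (sc ϖ h c).1.relIndex c.1 ≤ D := fun c => by
    have := hD c (sc ϖ h c) 1 fun v hv => by
      rw [mem_sc, pow_one, inv_smul_smul₀ h]
      exact hv
    rwa [pow_one] at this
  have key : ∀ (m : ℕ) (c : Lat K n) (F : Finset (Lat K n)),
      (∀ b ∈ F, b ≤ c ∧ b.1.relIndex c.1 ≤ m) →
        ∑ b ∈ F, Real.exp (-(((D : ℝ) + 1) * sz c b)) ≤ 2 := by
    intro m
    induction m with
    | zero =>
      intro c F hF
      rw [Finset.sum_eq_zero fun b hb => absurd (Nat.le_zero.1 (hF b hb).2) (h0 c b)]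
      norm_num
    | succ m ih =>
      intro c F hF
      have hF' : ∀ b ∈ F.erase c, b ≤ c ∧ b.1.relIndex c.1 ≤ m + 1 ∧ ¬ c ≤ b := fun b hb =>
        ⟨(hF b (mem_of_mem_erase hb)).1, (hF b (mem_of_mem_erase hb)).2,
          fun hc => ne_of_mem_erase hb (le_antisymm (hF b (mem_of_mem_erase hb)).1 hc)⟩
      have hA : ∑ b ∈ F.erase c, Real.exp (-(((D : ℝ) + 1) * sz c b)) ≤ 1 := by
        let g : Lat K n → Lat K n := fun b => b ⊔ sc ϖ h c
        rw [← Finset.sum_fiberwise_of_maps_to (g := g) (t := (F.erase c).image g)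
          fun b hb => mem_image_of_mem g hb]
        have hc : (((F.erase c).image g).card : ℝ) ≤ 2 ^ D := by
          have := (card_between (sc ϖ h c) c (h0 _ _) ((F.erase c).image g) fun b hb => by
            obtain ⟨a, ha, rfl⟩ := mem_image.1 hb
            exact ⟨le_sup_right, sup_le (hF' a ha).1 (sc_le ϖ h h1.le c)⟩).trans
              (Nat.pow_le_pow_right two_pos (hD1 c))
          exact_mod_cast this
        have hb : ∀ d ∈ (F.erase c).image g, ∑ b ∈ (F.erase c).filter (fun b => g b = d),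
            Real.exp (-(((D : ℝ) + 1) * sz c b)) ≤ ((2 : ℝ) ^ D)⁻¹ := by
          intro d hd
          obtain ⟨a, ha, rfl⟩ := mem_image.1 hd
          have hle : g a ≤ c := sup_le (hF' a ha).1 (sc_le ϖ h h1.le c)
          have h2 : 2 ≤ (g a).1.relIndex c.1 := by
            have e1 := h0 c (g a)
            have e2 : (g a).1.relIndex c.1 ≠ 1 := fun e =>
              (hF' a ha).2.2 (nak ϖ h h1 a c (AddSubgroup.relIndex_eq_one.1 e))
            omega
          have hm : ∀ b ∈ (F.erase c).filter (fun b => g b = g a), b ≤ g a ∧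
              b.1.relIndex (g a).1 * (g a).1.relIndex c.1 = b.1.relIndex c.1 := fun b hb => by
            have e : b ≤ g a := (mem_filter.1 hb).2 ▸ le_sup_left
            exact ⟨e, AddSubgroup.relIndex_mul_relIndex _ _ _ e hle⟩
          have hi := ih (g a) ((F.erase c).filter (fun b => g b = g a)) fun b hb => by
            refine ⟨(hm b hb).1, ?_⟩
            have e1 := (hm b hb).2
            have e2 := (hF' b (mem_filter.1 hb).1).2.1
            have e3 := Nat.pos_of_ne_zero (h0 (g a) b)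
            nlinarith
          have hs : Real.exp (-(((D : ℝ) + 1) * sz c (g a))) ≤ ((2 : ℝ) ^ (D + 1))⁻¹ := by
            have e1 : Real.log 2 ≤ sz c (g a) :=
              Real.log_le_log two_pos (by exact_mod_cast h2)
            have e2 : ((2 : ℝ) ^ (D + 1))⁻¹ = Real.exp (-(((D : ℝ) + 1) * Real.log 2)) := by
              rw [Real.exp_neg, ← Nat.cast_succ, Real.exp_nat_mul, Real.exp_log two_pos]
            rw [e2]
            refine Real.exp_le_exp.2 (neg_le_neg (mul_le_mul_of_nonneg_left e1 ?_))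
            positivity
          calc _ = ∑ b ∈ (F.erase c).filter (fun b => g b = g a),
                Real.exp (-(((D : ℝ) + 1) * sz c (g a))) *
                  Real.exp (-(((D : ℝ) + 1) * sz (g a) b)) := by
                refine sum_congr rfl fun b hb => ?_
                rw [← Real.exp_add]
                congr 1
                have e : sz c b = sz c (g a) + sz (g a) b := by
                  unfold sz
                  rw [← (hm b hb).2, Nat.cast_mul, Real.log_mul (by exact_mod_cast h0 _ _)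
                    (by exact_mod_cast h0 _ _), add_comm]
                rw [e]
                ring
            _ ≤ ((2 : ℝ) ^ (D + 1))⁻¹ * 2 := by
                rw [← mul_sum]
                exact mul_le_mul hs hi (sum_nonneg fun _ _ => (Real.exp_pos _).le)
                  (by positivity)
            _ = _ := by rw [pow_succ]; field_simp
        refine (sum_le_card_nsmul _ _ _ hb).trans ?_
        rw [nsmul_eq_mul, mul_inv_le_iff₀ (by positivity), one_mul]
        exact hc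
      have hB : Real.exp (-(((D : ℝ) + 1) * sz c c)) = 1 := by
        simp [sz]
      by_cases hc : c ∈ F
      · rw [← Finset.add_sum_erase _ _ hc, hB]
        linarith
      · rw [Finset.erase_eq_of_notMem hc] at hA
        linarith
  refine ⟨(D : ℝ) + 1, 1, by positivity, zero_le_one, fun c F hF => ?_⟩
  refine (key (F.sup fun b => b.1.relIndex c.1) c F fun b hb =>
    ⟨hF b hb, Finset.le_sup (f := fun b : Lat K n => b.1.relIndex c.1) hb⟩).trans ?_
  have := Real.add_one_le_exp 1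
  linarith

end Pool.Agent.Lib.SDP
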