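import Pool.Agent.Lib.SDP.Blue

/-! Assembly of the lattice instance. -/

noncomputable section

open Finset

namespace Pool.Agent.Lib.SDP

open Pool.Agent.Lib.U4 Pool.Agent.Lib.SD

namespace FIN

lemma pow_le_exp (c ε : ℝ) (hc : 0 < c) (hε : 0 < ε) (n : ℕ) :
    ∃ r₀ : ℝ, ∀ r, r₀ ≤ r → (c * r) ^ n ≤ Real.exp (ε * r) := by
  have h := (Real.tendsto_exp_div_pow_atTop n).eventually_ge_atTop ((c / ε) ^ n)
  obtain ⟨x₀, hx⟩ := Filter.eventually_atTop.1 h
  refine ⟨max (x₀ / ε) 1, fun r hr => ?_⟩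
  have h1 : x₀ / ε ≤ r := (le_max_left _ _).trans hr
  have h2 : 1 ≤ r := (le_max_right _ _).trans hr
  rw [div_le_iff₀' hε] at h1
  have h3 := hx _ h1
  rw [le_div_iff₀ (by positivity), ← mul_pow] at h3
  have : c / ε * (ε * r) = c * r := by field_simp
  rwa [this] at h3

end FIN

theorem main_of (hJ : St_J) (hN : St_N) (hI : St_IDX) (hC : St_CNT) (hS : St_STAB) (hL : St_LOC)
    (K : Type) [NontriviallyNormedField K] [IsUltrametricDist K] [ProperSpace K] (n : ℕ)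
    (Γ : Subgroup (GL (Fin n) K)) (hd : DiscreteTopology Γ)
    (h : CharZero K ∨ ∃ M : ℕ, ∀ F : Subgroup Γ, Finite F → Nat.card F ≤ M) :
    SubexpDecay fun r => {γ : Γ | Kc (Real.exp r) (γ : GL (Fin n) K)} := by
  classical
  obtain ⟨i1, i2, i3⟩ := hI K n
  refine hN.sd _ (fun r r' h γ hγ => Kc.mono hγ (Real.exp_le_exp.2 h))
    (hJ (X := Lat K n) sz (std K n) _
      ⟨fun g x y h => (le_iff _ _).2 fun v hv => (le_iff _ _).1 h _ hv, fun c x _ => ?_,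
      fun g c x => ?_, fun c b x h1 h2 => ?_, fun r g hg => Kc.inv hg, hC K n, ?_, ?_⟩)
  · exact Real.log_natCast_nonneg _
  · exact congrArg (fun m : ℕ => Real.log m) (i2 g c x)
  · unfold sz
    rw [← AddSubgroup.relIndex_mul_relIndex x.1 b.1 c.1 h1 h2, Nat.cast_mul,
      Real.log_mul (Nat.cast_ne_zero.2 (i1 _ _)) (Nat.cast_ne_zero.2 (i1 _ _)), add_comm]
  · have hM : ∃ M : ℕ, ∀ x : Lat K n, Nat.card (MulAction.stabilizer Γ x) ≤ M := by
      have hf : ∀ x : Lat K n, Finite (MulAction.stabilizer Γ x) := fun x =>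
        (hS.fin K n Γ hd x).to_subtype
      rcases h with h | ⟨M, h⟩
      · obtain ⟨M, hM⟩ := hS.mink K n
        refine ⟨M, fun x => ?_⟩
        have e := Subgroup.card_map_of_injective (K := MulAction.stabilizer Γ x)
          Γ.subtype_injective
        rw [← e]
        have := hf x
        refine hM x _ (Finite.of_equiv _
          ((MulAction.stabilizer Γ x).equivMapOfInjective _ Γ.subtype_injective).toEquiv) ?_
        rintro _ ⟨g, hg, rfl⟩
        exact hg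
      · exact ⟨M, fun x => h _ (hf x)⟩
    obtain ⟨M, hM⟩ := hM
    refine ⟨M, Nat.cast_nonneg _, fun x => ⟨(hS.fin K n Γ hd x).toFinset, ?_, fun g hg =>
      (Set.Finite.mem_toFinset _).2 hg⟩⟩
    rw [← Nat.card_eq_card_finite_toFinset]
    have h1 : ((Nat.card (MulAction.stabilizer Γ x) : ℕ) : ℝ) ≤ M := by exact_mod_cast hM x
    have h2 := Real.add_one_le_exp (M : ℝ)
    exact h1.trans (by linarith)
  · obtain ⟨ϖ, hϖ0, hϖ1⟩ := NormedField.exists_norm_lt_one K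
    have hϖ : ϖ ≠ 0 := norm_pos_iff.1 hϖ0
    obtain ⟨D, hD⟩ := i3 ϖ hϖ hϖ1.le
    have hQ : 1 < ‖ϖ‖⁻¹ := one_lt_inv_iff₀.2 ⟨hϖ0, hϖ1⟩
    have hl : 0 < Real.log ‖ϖ‖⁻¹ := Real.log_pos hQ
    set c : ℝ := 2 * n * (1 / Real.log ‖ϖ‖⁻¹ + 2) + 2 with hc
    have hc0 : 0 < c := by positivity
    have hD0 := Real.log_natCast_nonneg D
    refine ⟨c * Real.log D + 1, by positivity, fun ε hε => ?_⟩
    obtain ⟨r₀, hr₀⟩ := FIN.pow_le_exp c ε hc0 hε n
    refine ⟨max r₀ 1, fun r hr => ?_⟩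
    have hr1 : 1 ≤ r := (le_max_right _ _).trans hr
    set s := ⌈r / Real.log ‖ϖ‖⁻¹⌉₊ with hs
    obtain ⟨S, hS1, hS2⟩ := hL K n ϖ hϖ hϖ1 s
    have h1 : r / Real.log ‖ϖ‖⁻¹ ≤ s := Nat.le_ceil _
    have h2 : (s : ℝ) < r / Real.log ‖ϖ‖⁻¹ + 1 := Nat.ceil_lt_add_one (by positivity)
    have h3 : ((2 * n * (s + 1) + 2 : ℕ) : ℝ) ≤ c * r := by
      have e : c * r = 2 * n * (r / Real.log ‖ϖ‖⁻¹ + 2 * r) + 2 * r := by rw [hc]; ring
      have e2 : (2 * n : ℝ) * (s + 1) ≤ 2 * n * (r / Real.log ‖ϖ‖⁻¹ + 2 * r) :=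
        mul_le_mul_of_nonneg_left (by linarith) (by positivity)
      push_cast
      linarith
    have h4 : Real.exp r ≤ ‖ϖ‖⁻¹ ^ s := by
      rw [div_le_iff₀ hl] at h1
      rw [← Real.exp_log (pow_pos (zero_lt_one.trans hQ) s), Real.log_pow]
      exact Real.exp_le_exp.2 h1
    have h5 : ∀ b x : Lat K n, (∀ v ∈ b.1, ϖ ^ (2 * n * (s + 1) + 1) • v ∈ x.1) →
        sz b x ≤ (c * Real.log D + 1) * r := fun b x hb => by
      have e1 : (x.1.relIndex b.1 : ℝ) ≤ (D : ℝ) ^ (2 * n * (s + 1) + 1) := by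
        exact_mod_cast hD b x _ hb
      have e2 := Real.log_le_log (by exact_mod_cast Nat.pos_of_ne_zero (i1 b x)) e1
      rw [Real.log_pow] at e2
      have e3 : ((2 * n * (s + 1) + 1 : ℕ) : ℝ) ≤ c * r := le_trans (by gcongr; omega) h3
      have e4 := mul_le_mul_of_nonneg_right e3 hD0
      unfold sz
      nlinarith
    refine ⟨fun x => S x, fun x => ?_, fun x y hxy => ?_⟩
    · refine le_trans ?_ (hr₀ r ((le_max_left _ _).trans hr))
      calc ((S x).card : ℝ) ≤ ((2 * n * (s + 1) + 2 : ℕ) : ℝ) ^ n := by exact_mod_cast hS1 x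
        _ ≤ _ := pow_le_pow_left₀ (by positivity) h3 n
    · obtain ⟨b, k1, k2, k3, k4, k5, k6⟩ := hS2 x y (Kc.mono hxy h4)
      exact ⟨b, k1, k2, k3, k4, h5 _ _ k5, h5 _ _ k6⟩

end Pool.Agent.Lib.SDP
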