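import Pool.Agent.Lib.SDP.Blue
import Pool.Agent.Lib.SD.CAR

/-! Integral Cartan decomposition by complete pivoting. -/

noncomputable section

open Finset Matrix

namespace Pool.Agent.Lib.SDP

open Pool.Agent.Lib.SD Pool.Agent.Lib.SD.CAR

namespace ICD

variable {K : Type} [NontriviallyNormedField K] [IsUltrametricDist K] {n : ℕ}

lemma ent1 {g h : Matrix (Fin n) (Fin n) K} (hg : ∀ i j, ‖g i j‖ ≤ 1)
    (hh : ∀ i j, ‖h i j‖ ≤ 1) (i j : Fin n) : ‖(g * h) i j‖ ≤ 1 := by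
  rw [Matrix.mul_apply]
  refine IsUltrametricDist.norm_sum_le_of_forall_le_of_nonneg zero_le_one fun l _ => ?_
  rw [norm_mul]
  exact mul_le_one₀ (hg i l) (norm_nonneg _) (hh l j)

lemma mul1 {g h : GL (Fin n) K} (hg : Kc 1 g) (hh : Kc 1 h) : Kc 1 (g * h) := by
  refine ⟨ent1 hg.1 hh.1, fun i j => ?_⟩
  rw [_root_.mul_inv_rev]
  exact ent1 hh.2 hg.2 i j

lemma kc_el1 (u v : Fin n → K) (h : v ⬝ᵥ u = 0) (hu : ∀ i, ‖u i‖ ≤ 1) (hv : ∀ i, ‖v i‖ ≤ 1) :
    Kc 1 (el u v h) := by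
  have h1 : ∀ i j, ‖(1 : Matrix (Fin n) (Fin n) K) i j‖ ≤ 1 := kc_one.1
  have h2 : ∀ i j, ‖u i * v j‖ ≤ 1 := fun i j => by
    rw [norm_mul]
    exact mul_le_one₀ (hu i) (norm_nonneg _) (hv j)
  refine ⟨fun i j => ?_, fun i j => ?_⟩
  · change ‖(1 : Matrix (Fin n) (Fin n) K) i j - u i * v j‖ ≤ 1
    rw [sub_eq_add_neg]
    exact (IsUltrametricDist.norm_add_le_max _ _).trans
      (max_le (h1 i j) (by rw [norm_neg]; exact h2 i j))
  · change ‖(1 : Matrix (Fin n) (Fin n) K) i j + u i * v j‖ ≤ 1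
    exact (IsUltrametricDist.norm_add_le_max _ _).trans (max_le (h1 i j) (h2 i j))

lemma clear1 (T : Fin n) (h : GL (Fin n) K) (hZ : Z T.val h) (h0 : h.val T T ≠ 0)
    (hm : ∀ i j : Fin n, T.val ≤ i.val → T.val ≤ j.val → ‖h.val i j‖ ≤ ‖h.val T T‖) :
    ∃ k₁ k₂ : GL (Fin n) K, Kc 1 k₁ ∧ Kc 1 k₂ ∧ Z (T.val + 1) (k₁ * h * k₂) := by
  have hs : ∀ i, ‖(Pi.single T 1 : Fin n → K) i‖ ≤ 1 := fun i => by
    rw [Pi.single_apply]
    split_ifs <;> simp
  have hp : 0 < ‖h.val T T‖ := norm_pos_iff.2 h0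
  refine ⟨el (fun i => if i = T then 0 else h.val i T / h.val T T) (Pi.single T 1) (by simp),
    el (Pi.single T 1) (fun j => if j = T then 0 else h.val T j / h.val T T) (by simp),
    kc_el1 _ _ _ (fun i => ?_) hs, kc_el1 _ _ _ hs fun j => ?_, fun i j hij ht => ?_⟩
  · split_ifs with e
    · simp
    · rw [norm_div, div_le_one hp]
      rcases lt_or_ge i.val T.val with h1 | h1
      · rw [hZ i T e (Or.inl h1), norm_zero]
        exact hp.le
      · exact hm i T h1 le_rfl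
  · split_ifs with e
    · simp
    · rw [norm_div, div_le_one hp]
      rcases lt_or_ge j.val T.val with h1 | h1
      · rw [hZ T j (Ne.symm e) (Or.inr h1), norm_zero]
        exact hp.le
      · exact hm T j le_rfl h1
  · rw [mul_assoc, el_mul, mul_el, mul_el]
    by_cases e : i = T
    · subst e
      simp [hij.symm, mul_div_cancel₀ _ h0]
    by_cases e' : j = T
    · subst e'
      simp [e, h0]
    have e1 : i.val ≠ T.val := fun a => e (Fin.ext a)
    have e2 : j.val ≠ T.val := fun a => e' (Fin.ext a)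
    simp only [if_neg e, if_neg e', mul_div_cancel₀ _ h0, sub_self, mul_zero, sub_zero]
    rcases ht with ht | ht
    · rw [hZ i j hij (Or.inl (by omega)), hZ i T e (Or.inl (by omega))]
      simp
    · rw [hZ i j hij (Or.inr (by omega)), hZ T j (Ne.symm e') (Or.inr (by omega))]
      simp

lemma step1 (T : Fin n) (h : GL (Fin n) K) (hZ : Z T.val h) :
    ∃ k₁ k₂ : GL (Fin n) K, Kc 1 k₁ ∧ Kc 1 k₂ ∧
      Z (T.val + 1) (k₁ * h * k₂) := by
  obtain ⟨⟨r, s⟩, h1, h2⟩ := exists_max_image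
    (univ.filter fun p : Fin n × Fin n => T.val ≤ p.1.val ∧ T.val ≤ p.2.val)
    (fun p => ‖h.val p.1 p.2‖) ⟨(T, T), by simp⟩
  obtain ⟨hr, hs⟩ : T.val ≤ r.val ∧ T.val ≤ s.val := by simpa using h1
  have h3 : ∀ i j : Fin n, T.val ≤ i.val → T.val ≤ j.val → ‖h.val i j‖ ≤ ‖h.val r s‖ :=
    fun i j hi hj => h2 (i, j) (mem_filter.2 ⟨mem_univ _, hi, hj⟩)
  have h0 : h.val r s ≠ 0 := fun e => by
    have h4 : ∀ j, h.val T j = 0 := fun j => by
      rcases lt_or_ge j.val T.val with h5 | h5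
      · exact hZ T j (fun a => by omega) (Or.inr h5)
      · simpa [e] using h3 T j le_rfl h5
    have h5 := congrFun (congrFun h.val_inv T) T
    simp [Matrix.mul_apply, h4] at h5
  have h4 : ∀ i j, (pm (Equiv.swap T r) * h * (pm (Equiv.swap T s))⁻¹).val i j =
      h.val (Equiv.swap T r i) (Equiv.swap T s j) := fun i j => by
    rw [mul_pm_inv_apply, pm_mul_apply]
  obtain ⟨k₁, k₂, h5, h6, h7⟩ := clear1 T (pm (Equiv.swap T r) * h * (pm (Equiv.swap T s))⁻¹)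
    (fun i j hij ht => by
      rw [h4]
      rcases lt_or_ge i.val T.val with hi | hi <;> rcases lt_or_ge j.val T.val with hj | hj
      · rw [swap_lt hr hi, swap_lt hs hj]
        exact hZ i j hij ht
      · have := swap_ge hs hj
        rw [swap_lt hr hi]
        exact hZ _ _ (fun a => by omega) (Or.inl hi)
      · have := swap_ge hr hi
        rw [swap_lt hs hj]
        exact hZ _ _ (fun a => by omega) (Or.inr hj)
      · omega)
    (by rwa [h4, Equiv.swap_apply_left, Equiv.swap_apply_left])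
    (fun i j hi hj => by
      rw [h4, h4, Equiv.swap_apply_left, Equiv.swap_apply_left]
      exact h3 _ _ (swap_ge hr hi) (swap_ge hs hj))
  refine ⟨k₁ * pm (Equiv.swap T r), (pm (Equiv.swap T s))⁻¹ * k₂, mul1 h5 (kc_pm _),
    mul1 (kc_pm _).inv h6, ?_⟩
  simpa only [mul_assoc] using h7

lemma upto1 (t : ℕ) (ht : t ≤ n) (g : GL (Fin n) K) : ∃ k₁ k₂ : GL (Fin n) K,
    Kc 1 k₁ ∧ Kc 1 k₂ ∧ Z t (k₁ * g * k₂) := by
  induction t with
  | zero => exact ⟨1, 1, kc_one, kc_one, fun i j _ h => by omega⟩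
  | succ t ih =>
    obtain ⟨k₁, k₂, h1, h2, h3⟩ := ih (by omega)
    obtain ⟨l₁, l₂, h4, h5, h6⟩ := step1 ⟨t, ht⟩ _ h3
    refine ⟨l₁ * k₁, k₂ * l₂, mul1 h4 h1, mul1 h2 h5, ?_⟩
    simpa only [mul_assoc] using h6

end ICD

open ICD in
theorem stICD : St_ICD := by
  intro K _ _ n g
  obtain ⟨k₁, k₂, h1, h2, h3⟩ := upto1 (K := K) n le_rfl g
  obtain ⟨d, hd, h4⟩ := exists_dg (b := k₁ * g * k₂) fun i j hij => h3 i j hij (Or.inl i.2)
  exact ⟨k₁⁻¹, k₂⁻¹, d, hd, h1.inv, h2.inv, by rw [← h4]; group⟩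

end Pool.Agent.Lib.SDP
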