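import Pool.Agent.Lib.SDP.Blue

/-! Indices of lattices. -/

noncomputable section

namespace Pool.Agent.Lib.SDP

open Pool.Agent.Lib.SD

namespace IDX

variable {K : Type} [NontriviallyNormedField K] {n : ℕ}

lemma ne [ProperSpace K] (c x : Lat K n) : x.1.relIndex c.1 ≠ 0 := by
  obtain ⟨R, hR⟩ := c.2.bd
  obtain ⟨ρ, h0, hρ⟩ := x.2.op
  have h1 : TotallyBounded (c.1 : Set (Fin n → K)) :=
    (isCompact_closedBall (0 : Fin n → K) R).totallyBounded.subset fun v hv =>
      mem_closedBall_zero_iff.2 (hR v hv)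
  obtain ⟨t, h2, h3, h4⟩ := totallyBounded_iff_subset.1 h1 _ (Metric.dist_mem_uniformity h0)
  have := h3.to_subtype
  have : Finite (c.1 ⧸ x.1.addSubgroupOf c.1) := by
    refine Finite.of_surjective (fun y : t => ((⟨y, h2 y.2⟩ : c.1) : c.1 ⧸ x.1.addSubgroupOf c.1))
      fun q => ?_
    obtain ⟨v, rfl⟩ := QuotientAddGroup.mk_surjective q
    obtain ⟨y, hy, h5⟩ := Set.mem_iUnion₂.1 (h4 v.2)
    refine ⟨⟨y, hy⟩, QuotientAddGroup.eq.2 (hρ _ ?_)⟩
    change ‖-y + (v : Fin n → K)‖ ≤ ρ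
    rw [neg_add_eq_sub, ← dist_eq_norm]
    exact le_of_lt h5
  exact AddSubgroup.index_ne_zero_of_finite

lemma inv (g : GL (Fin n) K) (c x : Lat K n) :
    (g • x).1.relIndex (g • c).1 = x.1.relIndex c.1 := by
  change (x.1.comap (act g⁻¹)).relIndex (c.1.comap (act g⁻¹)) = _
  rw [AddSubgroup.relIndex_comap, AddSubgroup.map_comap_eq_self_of_surjective
    fun v => ⟨_, act_inv_act g v⟩]

lemma mono (g : GL (Fin n) K) {c x : Lat K n} (h : x ≤ c) : g • x ≤ g • c := fun _ hv => h hv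

lemma act_dg {ϖ : K} (h : ϖ ≠ 0) (v : Fin n → K) : act (dg (fun _ => ϖ) fun _ => h) v = ϖ • v := by
  ext i
  exact Matrix.mulVec_diagonal (fun _ => ϖ) v i

lemma act_pow {ϖ : K} {s : GL (Fin n) K} (hs : ∀ v, act s v = ϖ • v) (m : ℕ) (v : Fin n → K) :
    act (s ^ m) v = ϖ ^ m • v := by
  induction m with
  | zero => simp [act_one]
  | succ m ih => rw [pow_succ', act_mul, ih, hs, smul_smul, pow_succ']

lemma le {s : GL (Fin n) K} {ϖ : K} (hs : ∀ v, act s v = ϖ • v) (h : ‖ϖ‖ ≤ 1) (c : Lat K n) :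
    s • c ≤ c := fun v hv => by
  have := c.2.st ϖ h _ ((mem_smul _ _ _).1 hv)
  rwa [← hs, act_act_inv] at this

lemma const [ProperSpace K] {s : GL (Fin n) K} (hs : ∀ c : Lat K n, s • c ≤ c) {c x : Lat K n}
    (h : x ≤ c) : (s • c).1.relIndex c.1 = (s • x).1.relIndex x.1 := by
  have h1 := AddSubgroup.relIndex_mul_relIndex (s • x).1 (s • c).1 c.1 (mono s h) (hs c)
  have h2 := AddSubgroup.relIndex_mul_relIndex (s • x).1 x.1 c.1 (hs x) h
  rw [inv, ← h2, mul_comm] at h1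
  exact mul_right_cancel₀ (ne c x) h1

end IDX

open IDX in
theorem stIDX : St_IDX := by
  intro K _ _ _ n
  refine ⟨ne, inv, fun ϖ h0 h1 => ?_⟩
  obtain ⟨s, hs⟩ : ∃ s : GL (Fin n) K, ∀ v, act s v = ϖ • v := ⟨_, act_dg h0⟩
  have h2 : ∀ c : Lat K n, (s • c).1.relIndex c.1 = (s • std K n).1.relIndex (std K n).1 :=
    fun c => (const (le hs h1) (le_sup_left : c ≤ c ⊔ std K n)).symm.trans
      (const (le hs h1) le_sup_right)
  refine ⟨(s • std K n).1.relIndex (std K n).1, fun c x m h => ?_⟩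
  have h3 : ∀ m : ℕ, (s ^ m • c).1.relIndex c.1 = (s • std K n).1.relIndex (std K n).1 ^ m :=
    fun m => by
      induction m with
      | zero => simp
      | succ m ih =>
        rw [pow_succ', mul_smul, ← AddSubgroup.relIndex_mul_relIndex _ (s ^ m • c).1 _
          (le hs h1 _) (le (act_pow hs m) (by rw [norm_pow]; exact pow_le_one₀ (norm_nonneg _) h1)
            c), ih, h2, pow_succ']
  rw [← h3]
  refine AddSubgroup.relIndex_le_of_le_left (fun v hv => ?_) (ne _ _)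
  have := h _ ((mem_smul _ _ _).1 hv)
  rwa [← act_pow hs, act_act_inv] at this

end Pool.Agent.Lib.SDP
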