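import Pool.Agent.Lib.SDP.Blue

/-! The entropy theorem for join semilattices. -/

noncomputable section

open Finset

namespace Pool.Agent.Lib.SDP

open Pool.Agent.Lib.U4 Pool.Agent.Lib.SD

namespace J

variable {Γ X Ω α : Type} [Group Γ] [Fintype Ω]

lemma Dx_symm (P : FP Ω) (x y : Ω → Γ) : Dx P y x = Dx P x y := by
  have h1 : (P.H fun a => (y a, x a)) = P.H fun a => (x a, y a) :=
    stE1.H_congr P _ _ fun a b _ _ => by simp only [Prod.mk.injEq]; exact and_comm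
  have h2 : (P.H fun a => (y a)⁻¹ * x a) = P.H fun a => (x a)⁻¹ * y a :=
    stE1.H_congr P _ _ fun a b _ _ => by
      rw [← inv_inj, mul_inv_rev, mul_inv_rev, inv_inv, inv_inv]
  unfold Dx
  rw [h1, h2]
  ring

lemma Dx_le (P : FP Ω) (x y : Ω → Γ) : Dx P x y ≤ P.H x := by
  have h1 := stE1.H_pair_le P x y
  have h2 := stE1.H_pair_le P x fun a => (x a)⁻¹ * y a
  have h3 := stE1.H_mono P (fun a => (x a, (x a)⁻¹ * y a)) (fun a => (x a, y a))
    fun a b _ _ h => by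
      simp only [Prod.mk.injEq] at h ⊢
      refine ⟨h.1, ?_⟩
      have := h.2
      rw [h.1] at this
      exact mul_left_cancel this
  unfold Dx
  linarith

lemma tel_sum (f : ℕ → ℝ) (g : ℕ → ℝ) (N : ℕ) :
    2 * (f 0 + ∑ j ∈ range N, (g j - f j)) =
      ∑ j ∈ range N, (2 * g j - f j - f (j + 1)) + f 0 + f N := by
  induction N with
  | zero => simp; ring
  | succ N ih => rw [sum_range_succ, sum_range_succ]; linarith

lemma tel (hE : St_ENT) (P : FP Ω) (q : ℕ → Ω → α) (N : ℕ) :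
    2 * P.H (tup q N) ≤ ∑ j ∈ range N, (2 * (P.H fun a => (q j a, q (j + 1) a)) - P.H (q j) -
      P.H (q (j + 1))) + P.H (q 0) + P.H (q N) := by
  have h := hE.sub P q N
  have h2 := tel_sum (fun j => P.H (q j)) (fun j => P.H fun a => (q j a, q (j + 1) a)) N
  linarith

lemma cond_Dx (P : FP Ω) (x y : Ω → Γ) (b : Ω → X) :
    (P.E fun a => Dx (P.cond b (b a)) x y) =
      2 * P.H (fun a => ((x a, y a), b a)) - P.H (fun a => (x a, b a)) -
        P.H (fun a => (y a, b a)) - P.H (fun a => ((x a)⁻¹ * y a, b a)) + P.H b := by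
  have h1 := stE2.chain P (fun a => (x a, y a)) b
  have h2 := stE2.chain P x b
  have h3 := stE2.chain P y b
  have h4 := stE2.chain P (fun a => (x a)⁻¹ * y a) b
  unfold FP.cH at h1 h2 h3 h4
  unfold Dx
  rw [stE2.E_sub, stE2.E_sub, stE2.E_sub, stE2.E_smul, ← h1, ← h2, ← h3, ← h4]
  ring

/-- The Markov chain of triangles. -/
lemma chain (hE : St_ENT) (hC : SD.St_CHAIN) (P : FP Ω) (x y : Ω → Γ) (N : ℕ) (R : Γ → Γ → Prop)
    (hR : ∀ a, 0 < P.w a → R (x a) (y a) ∧ R (y a) (x a)) (φ : Γ → ℝ) :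
    ∃ (Ω' : Type) (_ : Fintype Ω') (Q : FP Ω') (p : ℕ → Ω' → Γ),
      (∀ j < N, ∀ a, 0 < Q.w a → R (p j a) (p (j + 1) a)) ∧
      (∀ j < N, (Q.E fun a => φ (p j a) + φ (p (j + 1) a)) = P.E fun a => φ (x a) + φ (y a)) ∧
      N * Dx P x y + ∑ j ∈ range N, (Q.H fun a => (p j a)⁻¹ * p (j + 1) a) + Q.H (p 0) +
        Q.H (p N) ≤ 2 * Q.H (tup p N) := by
  let V : ℕ → Ω → Γ := fun j => if Even j then x else y
  have hV : ∀ j, (V j = x ∧ V (j + 1) = y) ∨ (V j = y ∧ V (j + 1) = x) := fun j => by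
    by_cases h : Even j
    · left
      exact ⟨if_pos h, if_neg (by rw [Nat.even_add_one]; exact not_not.2 h)⟩
    · right
      exact ⟨if_neg h, if_pos (Nat.even_add_one.2 h)⟩
  obtain ⟨Ω', _, Q, p, h0, hN, hj, hH⟩ := hC P V N
  refine ⟨Ω', inferInstance, Q, p, fun j hjN => ?_, fun j hjN => ?_, ?_⟩
  · refine hE.lawS Q _ P _ (hj j hjN) (fun z => R z.1 z.2) fun a ha => ?_
    rcases hV j with ⟨h1, h2⟩ | ⟨h1, h2⟩ <;> simp only [h1, h2]
    exacts [(hR a ha).1, (hR a ha).2]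
  · refine (hj j hjN fun z => φ z.1 + φ z.2).trans ?_
    rcases hV j with ⟨h1, h2⟩ | ⟨h1, h2⟩ <;> simp only [h1, h2]
    exact stE2.E_congr P _ _ fun a _ => add_comm _ _
  · have e0 : Q.H (p 0) = P.H (V 0) := hE.lawH Q _ P _ h0 id
    have eN : Q.H (p N) = P.H (V N) := hE.lawH Q _ P _ hN id
    have h2 := tel_sum (fun j => P.H (V j)) (fun j => P.H fun a => (V j a, V (j + 1) a)) N
    have h3 : ∑ j ∈ range N, (2 * (P.H fun a => (V j a, V (j + 1) a)) - P.H (V j) -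
        P.H (V (j + 1))) = ∑ j ∈ range N, (Dx P x y + Q.H fun a => (p j a)⁻¹ * p (j + 1) a) := by
      refine sum_congr rfl fun j hjN => ?_
      have e := hE.lawH Q _ P _ (hj j (mem_range.1 hjN)) fun z => z.1⁻¹ * z.2
      have e' : Dx P x y = Dx P (V j) (V (j + 1)) := by
        rcases hV j with ⟨h1, h2⟩ | ⟨h1, h2⟩ <;> rw [h1, h2]
        exact (Dx_symm P x y).symm
      simp only at e
      rw [e, e']
      unfold Dx
      ring
    rw [sum_add_distrib, sum_const, card_range, nsmul_eq_mul] at h3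
    linarith

/-- The fan from the first vertex. -/
lemma fan (hE : St_ENT) (Q : FP Ω) (p : ℕ → Ω → Γ) (N : ℕ) (hN : 1 ≤ N) (B : Set Γ) (D : ℝ)
    (hD : Exc B D) (hB : ∀ j < N, ∀ a, 0 < Q.w a → (p j a)⁻¹ * p (j + 1) a ∈ B) :
    2 * Q.H (tup (fun j a => (p 0 a)⁻¹ * p j a) N) ≤ (N - 1) * D +
      ∑ j ∈ range N, (Q.H fun a => (p j a)⁻¹ * p (j + 1) a) + Q.H (p 0) + Q.H (p N) := by
  set q : ℕ → Ω → Γ := fun j a => (p 0 a)⁻¹ * p j a with hq
  have h := tel hE Q q N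
  have hg : ∀ j a, (q j a)⁻¹ * q (j + 1) a = (p j a)⁻¹ * p (j + 1) a := fun j a => by
    simp only [hq]; group
  have h0 : Q.H (q 0) = 0 := by
    have : q 0 = fun _ => 1 := funext fun a => by simp [hq]
    rw [this, stE1.H_const]
  have h1 : Q.H (q N) ≤ Q.H (p 0) + Q.H (p N) :=
    (stE1.H_mono Q (fun a => (p 0 a, p N a)) _ fun a b _ _ h => by
      simp only [Prod.mk.injEq] at h
      simp only [hq, h.1, h.2]).trans (stE1.H_pair_le Q _ _)
  have h2 : ∑ j ∈ range N, (2 * (Q.H fun a => (q j a, q (j + 1) a)) - Q.H (q j) -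
      Q.H (q (j + 1))) = ∑ j ∈ range N, (Dx Q (q j) (q (j + 1)) +
        Q.H fun a => (p j a)⁻¹ * p (j + 1) a) := by
    refine sum_congr rfl fun j _ => ?_
    unfold Dx
    simp only [hg]
    ring
  have h3 : ∑ j ∈ range N, Dx Q (q j) (q (j + 1)) ≤ (N - 1) * D := by
    obtain ⟨M, rfl⟩ : ∃ M, N = M + 1 := ⟨N - 1, by omega⟩
    rw [sum_range_succ']
    have h4 := Dx_le Q (q 0) (q (0 + 1))
    have h5 : ∑ j ∈ range M, Dx Q (q (j + 1)) (q (j + 1 + 1)) ≤ ∑ j ∈ range M, D :=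
      sum_le_sum fun j hj => hD Ω Q _ _ fun a ha => by
        rw [hg]
        exact hB _ (by have := mem_range.1 hj; omega) a ha
    rw [sum_const, card_range, nsmul_eq_mul] at h5
    push_cast
    linarith
  rw [sum_add_distrib] at h2
  linarith

/-- Conditioning on a random point costs twice its entropy in total. -/
lemma cond_sum (hE : St_ENT) (Q : FP Ω) (p : ℕ → Ω → Γ) (N : ℕ) (b : Ω → X) :
    2 * Q.H (tup p N) ≤ ∑ j ∈ range N, (Q.E fun a => Dx (Q.cond b (b a)) (p j) (p (j + 1))) +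
      ∑ j ∈ range N, (Q.H fun a => (p j a)⁻¹ * p (j + 1) a) + Q.H (p 0) + Q.H (p N) +
        2 * Q.H b := by
  have h := tel hE Q (fun j a => (p j a, b a)) N
  have h0 := stE1.H_mono Q (tup (fun j a => (p j a, b a)) N) (tup p N) fun a a' _ _ h =>
    funext fun j => congrArg Prod.fst (congrFun h j)
  have h1 := stE1.H_pair_le Q (p 0) b
  have h2 := stE1.H_pair_le Q (p N) b
  have h3 : ∑ j ∈ range N, (2 * (Q.H fun a => ((p j a, b a), (p (j + 1) a, b a))) -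
      Q.H (fun a => (p j a, b a)) - Q.H (fun a => (p (j + 1) a, b a))) ≤
      ∑ j ∈ range N, ((Q.E fun a => Dx (Q.cond b (b a)) (p j) (p (j + 1))) +
        Q.H fun a => (p j a)⁻¹ * p (j + 1) a) := by
    refine sum_le_sum fun j _ => ?_
    rw [cond_Dx]
    have h4 := stE1.H_pair_le Q (fun a => (p j a)⁻¹ * p (j + 1) a) b
    have h5 := stE1.H_mono Q (fun a => ((p j a, p (j + 1) a), b a))
      (fun a => ((p j a, b a), (p (j + 1) a, b a))) fun a a' _ _ h => by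
        simp only [Prod.mk.injEq] at h ⊢
        exact ⟨⟨h.1.1, h.2⟩, h.1.2, h.2⟩
    linarith
  rw [sum_add_distrib] at h3
  linarith

variable [MulAction Γ X] [SemilatticeSup X]

lemma H_grow (hE : St_ENT) {sz : X → X → ℝ} {C₁ C₂ : ℝ} (c : X)
    (hg : ∀ F : Finset X, (∀ b ∈ F, b ≤ c) → ∑ b ∈ F, Real.exp (-(C₁ * sz c b)) ≤ Real.exp C₂)
    (Q : FP Ω) (b : Ω → X) (hb : ∀ a, 0 < Q.w a → b a ≤ c) :
    Q.H b ≤ C₁ * Q.E (fun a => sz c (b a)) + C₂ := by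
  classical
  have h := hE.gib Q b (fun z => if z ≤ c then Real.exp (-(C₁ * sz c z)) / Real.exp C₂ else 0)
    (fun z => by split_ifs <;> positivity) (fun a ha => by rw [if_pos (hb a ha)]; positivity)
    fun F => by
      rw [← sum_filter, ← sum_div, div_le_one (Real.exp_pos _)]
      exact hg _ fun z hz => (mem_filter.1 hz).2
  refine h.trans (le_of_eq ?_)
  have e : (Q.E fun a => C₁ * sz c (b a) + C₂) = C₁ * Q.E (fun a => sz c (b a)) + C₂ := by
    rw [stE2.E_add, stE2.E_smul, stE2.E_const]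
  rw [← e]
  refine stE2.E_congr Q _ _ fun a ha => ?_
  rw [if_pos (hb a ha), ← Real.exp_sub, Real.log_exp]
  ring

lemma H_stab (hE : St_ENT) {M : ℝ} (hM : ∀ x : X, ∃ F : Finset Γ, (F.card : ℝ) ≤ Real.exp M ∧
    ∀ g : Γ, g • x = x → g ∈ F) (Q : FP Ω) (O : Ω → α) (β : α → X) (g : Ω → Γ) :
    (Q.H fun a => (O a, g a)) ≤ Q.H O + Q.H (fun a => g a • β (O a)) + M := by
  classical
  choose F hF1 hF2 using hM
  have hS : ∀ z : α × X, ∃ S : Finset Γ, (S.card : ℝ) ≤ Real.exp M ∧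
      ∀ h : Γ, h • β z.1 = z.2 → h ∈ S := fun z => by
    by_cases h : ∃ h : Γ, h • β z.1 = z.2
    · obtain ⟨h₀, e⟩ := h
      refine ⟨(F (β z.1)).image (h₀ * ·), le_trans (by exact_mod_cast card_image_le) (hF1 _),
        fun h e' => mem_image.2 ⟨h₀⁻¹ * h, hF2 _ _ ?_, by simp⟩⟩
      rw [mul_smul, e', ← e, inv_smul_smul]
    · exact ⟨∅, by simpa using (Real.exp_pos M).le, fun h' e => (h ⟨h', e⟩).elim⟩
  choose S hS1 hS2 using hS
  have h1 := hE.cond Q (fun a => (O a, g a • β (O a))) g S M hS1 fun a _ => hS2 _ _ rfl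
  have h2 := stE1.H_pair_le Q O fun a => g a • β (O a)
  have h3 := stE1.H_mono Q (fun a => ((O a, g a • β (O a)), g a)) (fun a => (O a, g a))
    fun a a' _ _ h => by
      simp only [Prod.mk.injEq] at h ⊢
      exact ⟨h.1.1, h.2⟩
  linarith

/-- The join of the points `t j • o`. -/
def jn (o : X) {N : ℕ} (t : Fin (N + 1) → Γ) : X := univ.sup' univ_nonempty fun j => t j • o

lemma le_jn (o : X) {N : ℕ} (t : Fin (N + 1) → Γ) (j : Fin (N + 1)) : t j • o ≤ jn o t :=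
  le_sup' (fun j => t j • o) (mem_univ j)

lemma smul_jn (mono : ∀ (g : Γ) (x y : X), x ≤ y → g • x ≤ g • y) (o : X) {N : ℕ} (g : Γ)
    (t : Fin (N + 1) → Γ) : g • jn o (fun j => g⁻¹ * t j) = jn o t := by
  refine le_antisymm ?_ (sup'_le _ _ fun j _ => ?_)
  · have h : jn o (fun j => g⁻¹ * t j) ≤ g⁻¹ • jn o t := sup'_le _ _ fun j _ => by
      rw [mul_smul]
      exact mono _ _ _ (le_jn o t j)
    have := mono g _ _ h
    rwa [smul_inv_smul] at this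
  · have := mono g _ _ (le_jn o (fun j => g⁻¹ * t j) j)
    rwa [mul_smul, smul_inv_smul] at this

/-- A random pair below a point `c`, with deficiency at most `e` and size at most `s`. -/
def State (sz : X → X → ℝ) (o : X) (B : Set Γ) (D e s : ℝ) : Prop :=
  ∃ (Ω : Type) (_ : Fintype Ω) (P : FP Ω) (x y : Ω → Γ) (c : X),
    (∀ a, 0 < P.w a → (x a)⁻¹ * y a ∈ B ∧ x a • o ≤ c ∧ y a • o ≤ c) ∧ D - e ≤ Dx P x y ∧
      (P.E fun a => sz c (x a • o) + sz c (y a • o)) ≤ s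

lemma step (hE : St_ENT) (hC : SD.St_CHAIN) {sz : X → X → ℝ} {o : X} {B : ℝ → Set Γ}
    (hG : JGeo sz o B) {C₁ C₂ M : ℝ} (hC₁ : 0 < C₁)
    (hg : ∀ (c : X) (F : Finset X), (∀ b ∈ F, b ≤ c) →
      ∑ b ∈ F, Real.exp (-(C₁ * sz c b)) ≤ Real.exp C₂)
    (hM : ∀ x : X, ∃ F : Finset Γ, (F.card : ℝ) ≤ Real.exp M ∧ ∀ g : Γ, g • x = x → g ∈ F)
    {r D e s s₀ Δ A : ℝ} (hD : Exc (B r) D) (hs : s ≤ s₀) (hΔ : 0 < Δ)
    (hΔ' : C₁ * Δ + C₂ + M ≤ D / 4) (hA : 2 * (C₁ * s₀ + C₂) ≤ A) (N : ℕ) (hN : 1 ≤ N)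
    (hNe : N * e ≤ D / 2) (e' : ℝ) (he' : 0 < e') (he : N * e + A ≤ N * e')
    (h : State sz o (B r) D e s) : State sz o (B r) D (e' * (1 + s₀ / Δ)) (s - Δ) := by
  obtain ⟨Ω₀, _, P, x, y, c, h1, h2, h3⟩ := h
  obtain ⟨Ω, _, Q, p, k1, k2, k3⟩ := chain hE hC P x y N
    (fun u v => u⁻¹ * v ∈ B r ∧ u • o ≤ c ∧ v • o ≤ c) (fun a ha => ⟨h1 a ha, by
      have := hG.symm r _ (h1 a ha).1
      rwa [mul_inv_rev, inv_inv] at this, (h1 a ha).2.2, (h1 a ha).2.1⟩) fun u => sz c (u • o)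
  have hNp : (0 : ℝ) < N := by exact_mod_cast hN
  have hp : ∀ j ≤ N, ∀ a, 0 < Q.w a → p j a • o ≤ c := fun j hj a ha => by
    rcases hj.lt_or_eq with hj | hj
    · exact (k1 j hj a ha).2.1
    · obtain ⟨j, rfl⟩ : ∃ i, j = i + 1 := ⟨j - 1, by omega⟩
      exact (k1 j (by omega) a ha).2.2
  set b : Ω → X := fun a => jn o (tup p N a) with hb
  have hbc : ∀ a, 0 < Q.w a → b a ≤ c := fun a ha =>
    sup'_le _ _ fun j _ => hp j (Nat.lt_succ_iff.1 j.2) a ha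
  have hpb : ∀ j ≤ N, ∀ a, p j a • o ≤ b a := fun j hj a =>
    le_jn o (tup p N a) ⟨j, Nat.lt_succ_iff.2 hj⟩
  set σ := Q.E fun a => sz c (b a) with hσ
  have hHb : Q.H b ≤ C₁ * σ + C₂ := H_grow hE c (hg c) Q b hbc
  have hsz : ∀ j < N, (Q.E fun a => sz (b a) (p j a • o) + sz (b a) (p (j + 1) a • o)) ≤
      s - 2 * σ := fun j hj => by
    have e1 := k2 j hj
    have e2 : (Q.E fun a => sz c (p j a • o) + sz c (p (j + 1) a • o)) =
        Q.E fun a => 2 * sz c (b a) + (sz (b a) (p j a • o) + sz (b a) (p (j + 1) a • o)) :=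
      stE2.E_congr Q _ _ fun a ha => by
        rw [hG.add c (b a) _ (hpb j hj.le a) (hbc a ha),
          hG.add c (b a) _ (hpb (j + 1) hj a) (hbc a ha)]
        ring
    rw [stE2.E_add Q (fun a => 2 * sz c (b a)), stE2.E_smul] at e2
    linarith
  have hσs : 2 * σ ≤ s := by
    have e1 := hsz 0 hN
    have e2 : (Q.E fun _ => (0 : ℝ)) ≤
        Q.E fun a => sz (b a) (p 0 a • o) + sz (b a) (p (0 + 1) a • o) :=
      stE2.E_mono Q _ _ fun a _ => add_nonneg (hG.nn _ _ (hpb 0 (by omega) a))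
        (hG.nn _ _ (hpb _ hN a))
    rw [stE2.E_const] at e2
    linarith
  have hσ0 : 0 ≤ σ := by
    have := stE2.E_mono Q (fun _ => (0 : ℝ)) (fun a => sz c (b a)) fun a ha => hG.nn _ _ (hbc a ha)
    rwa [stE2.E_const] at this
  have hfan := fan hE Q p N hN (B r) D hD fun j hj a ha => (k1 j hj a ha).1
  have hst := H_stab hE hM Q (tup (fun j a => (p 0 a)⁻¹ * p j a) N) (jn o) (p 0)
  have hbe : (fun a => p 0 a • jn o (tup (fun j a => (p 0 a)⁻¹ * p j a) N a)) = b :=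
    funext fun a => smul_jn hG.mono o (p 0 a) (tup p N a)
  rw [hbe] at hst
  have hPO := stE1.H_mono Q (fun a => (tup (fun j a => (p 0 a)⁻¹ * p j a) N a, p 0 a)) (tup p N)
    fun a a' _ _ h => by
      simp only [Prod.mk.injEq] at h
      funext j
      have := congrFun h.1 j
      simp only [tup, h.2] at this
      exact mul_left_cancel this
  have hND : N * (D - e) ≤ N * Dx P x y := mul_le_mul_of_nonneg_left h2 hNp.le
  have hΔσ : Δ ≤ σ := by
    have : C₁ * Δ ≤ C₁ * σ := by nlinarith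
    exact le_of_mul_le_mul_left this hC₁
  have hcs := cond_sum hE Q p N b
  have hσs₀ : C₁ * σ ≤ C₁ * s₀ := mul_le_mul_of_nonneg_left (by linarith) hC₁.le
  set lam := e' / Δ with hlam
  have hlam0 : 0 < lam := div_pos he' hΔ
  let f : ℕ → Ω → ℝ := fun j a => D - Dx (Q.cond b (b a)) (p j) (p (j + 1)) +
    lam * (Q.cond b (b a)).E fun ω => sz (b a) (p j ω • o) + sz (b a) (p (j + 1) ω • o)
  have hf : (Q.E fun a => ∑ j ∈ range N, f j a) ≤ ∑ _j ∈ range N, (e' + lam * (s - 2 * Δ)) := by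
    rw [stE2.E_sum]
    have e1 : ∑ j ∈ range N, Q.E (f j) ≤ ∑ j ∈ range N, (D - (Q.E fun a =>
        Dx (Q.cond b (b a)) (p j) (p (j + 1))) + lam * (s - 2 * Δ)) := by
      refine sum_le_sum fun j hj => ?_
      have e2 := stE2.tower Q b fun z ω => sz z (p j ω • o) + sz z (p (j + 1) ω • o)
      have e3 := hsz j (mem_range.1 hj)
      simp only [f]
      rw [stE2.E_add, stE2.E_sub, stE2.E_const, stE2.E_smul, e2]
      nlinarith
    refine e1.trans ?_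
    simp only [sum_add_distrib, sum_sub_distrib, sum_const, card_range, nsmul_eq_mul]
    nlinarith
  obtain ⟨a, ha, hfa⟩ := stE2.exists_le_E Q fun a => ∑ j ∈ range N, f j a
  obtain ⟨j, hj, hfj⟩ := exists_le_of_sum_le (nonempty_range_iff.2 (by omega)) (hfa.trans hf)
  have hj' := mem_range.1 hj
  have hsup : ∀ ω, 0 < (Q.cond b (b a)).w ω → (p j ω)⁻¹ * p (j + 1) ω ∈ B r ∧
      p j ω • o ≤ b a ∧ p (j + 1) ω • o ≤ b a := fun ω hω => by
    obtain ⟨e1, e2⟩ := (stE2.cond_supp Q b a ω ha).1 hω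
    exact ⟨(k1 j hj' ω e1).1, e2 ▸ hpb j hj'.le ω, e2 ▸ hpb (j + 1) hj' ω⟩
  have hDj := hD Ω (Q.cond b (b a)) (p j) (p (j + 1)) fun ω hω => (hsup ω hω).1
  have hsj := stE2.E_mono (Q.cond b (b a)) (fun _ => (0 : ℝ))
    (fun ω => sz (b a) (p j ω • o) + sz (b a) (p (j + 1) ω • o)) fun ω hω =>
      add_nonneg (hG.nn _ _ (hsup ω hω).2.1) (hG.nn _ _ (hsup ω hω).2.2)
  rw [stE2.E_const] at hsj
  simp only [f] at hfj
  have hl1 : lam * Δ = e' := div_mul_cancel₀ _ hΔ.ne'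
  have hl2 : e' * (1 + s₀ / Δ) = e' + lam * s₀ := by rw [hlam]; ring
  refine ⟨Ω, inferInstance, Q.cond b (b a), p j, p (j + 1), b a, hsup, ?_, ?_⟩
  · rw [hl2]
    nlinarith
  · refine le_of_mul_le_mul_left ?_ hlam0
    nlinarith

lemma init (hE : St_ENT) {sz : X → X → ℝ} {o : X} {B : Set Γ} {t s : ℝ} (S : Γ → Finset X)
    (h1 : ∀ x, ((S x).card : ℝ) ≤ Real.exp t) (h2 : ∀ x y : Γ, x⁻¹ * y ∈ B →
      ∃ b ∈ S x, b ∈ S y ∧ x • o ≤ b ∧ y • o ≤ b ∧ sz b (x • o) ≤ s ∧ sz b (y • o) ≤ s)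
    (P : FP Ω) (x y : Ω → Γ) (h : ∀ a, 0 < P.w a → (x a)⁻¹ * y a ∈ B) :
    ∃ (Q : FP Ω) (c : X), (∀ a, 0 < Q.w a → (x a)⁻¹ * y a ∈ B ∧ x a • o ≤ c ∧ y a • o ≤ c ∧
      sz c (x a • o) ≤ s ∧ sz c (y a • o) ≤ s) ∧ Dx P x y - 2 * t ≤ Dx Q x y := by
  classical
  have : Nonempty X := ⟨o⟩
  choose! β k1 k2 k3 using h2
  set b : Ω → X := fun a => β (x a) (y a) with hb
  have e1 := hE.cond P x b S t h1 fun a ha => k1 _ _ (h a ha)
  have e2 := hE.cond P y b S t h1 fun a ha => k2 _ _ (h a ha)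
  have e3 := stE1.H_pair_le P (fun a => (x a)⁻¹ * y a) b
  have e4 := stE1.H_mono P (fun a => ((x a, y a), b a)) (fun a => (x a, y a))
    fun a a' _ _ h => congrArg Prod.fst h
  have e5 := cond_Dx P x y b
  obtain ⟨a, ha, e6⟩ := stE2.exists_le_E P fun a => 0 - Dx (P.cond b (b a)) x y
  rw [stE2.E_sub, stE2.E_const] at e6
  refine ⟨P.cond b (b a), b a, fun ω hω => ?_, ?_⟩
  · obtain ⟨e7, e8⟩ := (stE2.cond_supp P b a ω ha).1 hω
    exact ⟨h ω e7, e8 ▸ k3 _ _ (h ω e7)⟩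
  · have e7 : Dx P x y = 2 * P.H (fun a => (x a, y a)) - P.H x - P.H y -
        P.H fun a => (x a)⁻¹ * y a := rfl
    linarith

lemma iter (hE : St_ENT) (hC : SD.St_CHAIN) {sz : X → X → ℝ} {o : X} {B : ℝ → Set Γ}
    (hG : JGeo sz o B) {C₁ C₂ M : ℝ} (hC₁ : 0 < C₁)
    (hg : ∀ (c : X) (F : Finset X), (∀ b ∈ F, b ≤ c) →
      ∑ b ∈ F, Real.exp (-(C₁ * sz c b)) ≤ Real.exp C₂)
    (hM : ∀ x : X, ∃ F : Finset Γ, (F.card : ℝ) ≤ Real.exp M ∧ ∀ g : Γ, g • x = x → g ∈ F)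
    {r D e₀ s₀ Δ A β : ℝ} (hD : Exc (B r) D) (hD0 : 0 < D) (hs₀ : 0 ≤ s₀) (hΔ : 0 < Δ)
    (hΔ' : C₁ * Δ + C₂ + M ≤ D / 4) (hA : 2 * (C₁ * s₀ + C₂) ≤ A) (hA0 : 0 ≤ A) (he₀ : 0 < e₀)
    (hβ : (1 + 4 * A / D) * (1 + s₀ / Δ) ≤ β) (K : ℕ) (hK : β ^ K * e₀ ≤ D / 2)
    (h : State sz o (B r) D e₀ s₀) (k : ℕ) (hk : k ≤ K) :
    State sz o (B r) D (β ^ k * e₀) (s₀ - k * Δ) := by
  have h1 : 1 ≤ 1 + 4 * A / D := le_add_of_nonneg_right (by positivity)
  have h2 : 1 ≤ 1 + s₀ / Δ := le_add_of_nonneg_right (by positivity)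
  have hβ1 : 1 ≤ β := (one_le_mul_of_one_le_of_one_le h1 h2).trans hβ
  induction k with
  | zero => simpa using h
  | succ k ih =>
    set e := β ^ k * e₀ with he
    have he0 : 0 < e := by positivity
    have heD : e ≤ D / 2 := le_trans (mul_le_mul_of_nonneg_right
      (pow_le_pow_right₀ hβ1 (by omega)) he₀.le) hK
    have hq : 1 ≤ D / (2 * e) := by rw [le_div_iff₀ (by positivity)]; linarith
    set N := ⌊D / (2 * e)⌋₊ with hN
    have hN1 : 1 ≤ N := Nat.le_floor (by simpa using hq)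
    have hN1' : (1 : ℝ) ≤ N := by exact_mod_cast hN1
    have hN2 : (N : ℝ) ≤ D / (2 * e) := Nat.floor_le (by positivity)
    have hN3 : D / (2 * e) < N + 1 := Nat.lt_floor_add_one _
    rw [le_div_iff₀ (by positivity)] at hN2
    rw [div_lt_iff₀ (by positivity)] at hN3
    have hN4 : D ≤ 4 * (N * e) := by nlinarith
    have h3 : A ≤ N * (e * (4 * A / D)) := by
      have : N * (e * (4 * A / D)) = 4 * (N * e) * A / D := by ring
      rw [this, le_div_iff₀ hD0]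
      nlinarith
    obtain ⟨Ω, _, P, x, y, c, k1, k2, k3⟩ := step hE hC hG hC₁ hg hM hD
      (s := s₀ - k * Δ) (s₀ := s₀) (by have : 0 ≤ k * Δ := by positivity
                                       linarith) hΔ hΔ' hA N hN1
      (by linarith) (e * (1 + 4 * A / D)) (by positivity) (by nlinarith) (ih (by omega))
    refine ⟨Ω, inferInstance, P, x, y, c, k1, le_trans ?_ k2, k3.trans (le_of_eq ?_)⟩
    · have : e * ((1 + 4 * A / D) * (1 + s₀ / Δ)) ≤ e * β := mul_le_mul_of_nonneg_left hβ he0.le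
      rw [pow_succ, mul_right_comm, ← he]
      nlinarith
    · push_cast
      ring

end J

open J in
theorem stJ (hE : St_ENT) (hC : SD.St_CHAIN) : St_J := by
  intro Γ X _ _ _ sz o B hG δ hδ
  obtain ⟨C₁, C₂, hC₁, hC₂, hg⟩ := hG.grow
  obtain ⟨M, hM0, hM⟩ := hG.stab
  obtain ⟨L, hL, hred⟩ := hG.red
  set β := (1 + 4 * (4 * C₁ * L + δ) / δ) * (1 + 16 * L * C₁ / δ) with hβ
  obtain ⟨K, hK⟩ := exists_nat_gt (16 * L * C₁ / δ)
  have hβ0 : 0 < β ^ K := by positivity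
  obtain ⟨r₁, hr₁⟩ := hred (δ / (8 * β ^ K)) (by positivity)
  refine ⟨max r₁ (max (8 * (C₂ + M) / δ + 1) (4 * β ^ K / δ)), fun r hr => ?_⟩
  obtain ⟨S, hS1, hS2⟩ := hr₁ r ((le_max_left _ _).trans hr)
  have hr2 : 8 * (C₂ + M) / δ + 1 ≤ r := ((le_max_left _ _).trans (le_max_right _ _)).trans hr
  have hr3 : 4 * β ^ K / δ ≤ r := ((le_max_right _ _).trans (le_max_right _ _)).trans hr
  have hr0 : 0 < r := by
    have : 0 ≤ 8 * (C₂ + M) / δ := by positivity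
    linarith
  have hr4 : 8 * (C₂ + M) ≤ δ * r := by
    have : 8 * (C₂ + M) / δ ≤ r := by linarith
    rwa [div_le_iff₀' hδ] at this
  rw [div_le_iff₀' hδ] at hr3
  let T : Set ℝ := {d | ∃ (Ω : Type) (_ : Fintype Ω) (P : FP Ω) (x y : Ω → Γ),
    (∀ a, 0 < P.w a → (x a)⁻¹ * y a ∈ B r) ∧ d = Dx P x y}
  have hT : BddAbove T := by
    refine ⟨2 * (δ / (8 * β ^ K) * r) + (C₁ * (L * r) + C₂ + M), ?_⟩
    rintro d ⟨Ω, _, P, x, y, h, rfl⟩
    obtain ⟨Q, c, k1, k2⟩ := init hE S hS1 hS2 P x y h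
    have e1 := Dx_le Q x y
    have e2 := H_stab hE hM Q (fun _ => ()) (fun _ => o) x
    have e3 := H_grow hE c (hg c) Q (fun a => x a • o) fun a ha => (k1 a ha).2.1
    have e4 := stE1.H_mono Q (fun a => ((), x a)) x fun a b _ _ h => congrArg Prod.snd h
    have e5 := stE2.E_mono Q (fun a => sz c (x a • o)) (fun _ => L * r)
      fun a ha => (k1 a ha).2.2.2.1
    rw [stE2.E_const] at e5
    rw [stE1.H_const] at e2
    have e6 := mul_le_mul_of_nonneg_left e5 hC₁.le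
    linarith
  intro Ω₀ _ P₀ x₀ y₀ h₀
  by_contra hcon
  set D := sSup T with hDdef
  have hD : Exc (B r) D := fun Ω _ P x y h => le_csSup hT ⟨Ω, inferInstance, P, x, y, h, rfl⟩
  have hDr : δ * r ≤ D := (not_le.1 hcon).le.trans (hD _ P₀ x₀ y₀ h₀)
  have hδr : 0 < δ * r := by positivity
  obtain ⟨_, ⟨Ω, _, P, x, y, h, rfl⟩, hd⟩ := exists_lt_of_lt_csSup
    (⟨_, Ω₀, inferInstance, P₀, x₀, y₀, h₀, rfl⟩ : T.Nonempty) (sub_one_lt D)
  obtain ⟨Q, c, k1, k2⟩ := init hE S hS1 hS2 P x y h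
  have hst : State sz o (B r) D (1 + 2 * (δ / (8 * β ^ K) * r)) (2 * (L * r)) := by
    refine ⟨Ω, inferInstance, Q, x, y, c, fun a ha => ⟨(k1 a ha).1, (k1 a ha).2.1,
      (k1 a ha).2.2.1⟩, by linarith, ?_⟩
    rw [← stE2.E_const Q (2 * (L * r))]
    exact stE2.E_mono Q _ _ fun a ha => by linarith [(k1 a ha).2.2.2.1, (k1 a ha).2.2.2.2]
  have hq : 2 * (L * r) / (δ * r / (8 * C₁)) = 16 * L * C₁ / δ := by field_simp; ring
  obtain ⟨Ω', _, P', x', y', c', l1, -, l3⟩ := iter hE hC hG hC₁ hg hM (r := r) (β := β)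
    (Δ := δ * r / (8 * C₁)) (A := (4 * C₁ * L + δ) * r) hD (by linarith) (by positivity)
    (by positivity) (by
      have : C₁ * (δ * r / (8 * C₁)) = δ * r / 8 := by field_simp
      linarith) (by nlinarith) (by positivity) (by positivity) (by
      rw [hq, hβ]
      refine mul_le_mul_of_nonneg_right (add_le_add_right ?_ _) (by positivity)
      rw [div_le_div_iff₀ (by linarith) hδ]
      have : 0 ≤ 4 * (4 * C₁ * L + δ) := by positivity
      nlinarith) K (by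
      have : β ^ K * (1 + 2 * (δ / (8 * β ^ K) * r)) = β ^ K + δ * r / 4 := by field_simp; ring
      linarith) hst K le_rfl
  have l4 := stE2.E_mono P' (fun _ => (0 : ℝ)) (fun a => sz c' (x' a • o) + sz c' (y' a • o))
    fun a ha => add_nonneg (hG.nn _ _ (l1 a ha).2.1) (hG.nn _ _ (l1 a ha).2.2)
  rw [stE2.E_const] at l4
  rw [← hq, div_lt_iff₀ (by positivity)] at hK
  linarith

end Pool.Agent.Lib.SDP
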