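import Pool.Agent.Lib.SDP.Blue

/-! Localisation for lattices. -/

noncomputable section

open Finset

namespace Pool.Agent.Lib.SDP

open Pool.Agent.Lib.SD

namespace LOC

/-- A monotone `1`-Lipschitz function close to the identity, constant near given points. -/
lemma exists_psi {ι : Type} [Fintype ι] (a : ι → ℤ) (r : ℕ) : ∃ ψ : ℤ → ℤ,
    (∀ i j, i ≤ j → ψ i ≤ ψ j) ∧ (∀ i j, i ≤ j → ψ j - j ≤ ψ i - i) ∧ (∀ i, i + 1 ≤ ψ i) ∧
    (∀ i, ψ i ≤ i + 1 + (Fintype.card ι * r : ℕ)) ∧ ∀ k, ψ (a k - r) = ψ (a k) := by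
  classical
  let B : Finset ℤ := univ.biUnion fun k => Ioc (a k - r) (a k)
  have hB : B.card ≤ Fintype.card ι * r := by
    refine card_biUnion_le.trans (le_of_eq ?_)
    have : ∀ k, (Ioc (a k - r) (a k)).card = r := fun k => by
      rw [Int.card_Ioc]
      omega
    simp [this]
  let c : ℤ → ℕ := fun i => (B.filter (i < ·)).card
  have hc : ∀ i j, i ≤ j → c i = c j + (B.filter fun s => i < s ∧ s ≤ j).card := fun i j h => by
    simp only [c]
    rw [← card_union_of_disjoint, ← filter_or]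
    · congr 1
      refine filter_congr fun s _ => ?_
      omega
    · rw [disjoint_filter]
      intro s _ h1 h2
      omega
  refine ⟨fun i => i + 1 + c i, fun i j h => ?_, fun i j h => ?_, fun i => by simp, fun i => ?_,
    fun k => ?_⟩
  · have h3 : (B.filter fun s => i < s ∧ s ≤ j).card ≤ (Ioc i j).card :=
      card_le_card fun s hs => mem_Ioc.2 (mem_filter.1 hs).2
    rw [Int.card_Ioc] at h3
    have := hc i j h
    beta_reduce
    omega
  · have := hc i j h
    beta_reduce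
    omega
  · have : c i ≤ B.card := card_filter_le _ _
    beta_reduce
    omega
  · have h3 : (B.filter fun s => a k - r < s ∧ s ≤ a k) = Ioc (a k - r) (a k) := by
      ext s
      simp only [mem_filter, mem_Ioc, and_iff_right_iff_imp]
      intro hs
      exact mem_biUnion.2 ⟨k, mem_univ _, mem_Ioc.2 hs⟩
    have := hc (a k - r) (a k) (by omega)
    rw [h3, Int.card_Ioc] at this
    beta_reduce
    omega

variable {K : Type} [NontriviallyNormedField K] [IsUltrametricDist K] {n : ℕ}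

lemma act_le {C : ℝ} (hC : 0 ≤ C) {g : GL (Fin n) K} (h : ∀ i j, ‖g.val i j‖ ≤ C)
    (v : Fin n → K) : ‖act g v‖ ≤ C * ‖v‖ := by
  refine (pi_norm_le_iff_of_nonneg (by positivity)).2 fun i => ?_
  rw [act_apply, Matrix.mulVec, dotProduct]
  refine IsUltrametricDist.norm_sum_le_of_forall_le_of_nonneg (by positivity) fun j _ => ?_
  rw [norm_mul]
  exact mul_le_mul (h i j) (norm_le_pi_norm v j) (norm_nonneg _) hC

omit [IsUltrametricDist K] in
lemma act_dg (d : Fin n → K) (hd : ∀ i, d i ≠ 0) (v : Fin n → K) (i : Fin n) :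
    act (dg d hd) v i = d i * v i := Matrix.mulVec_diagonal d v i

/-- The coordinates of `v` are controlled by `x⁻¹ v`. -/
lemma coord_le {k k' : GL (Fin n) K} {d : Fin n → K} {hd : ∀ i, d i ≠ 0} (hk' : Kc 1 k')
    (v : Fin n → K) (i : Fin n) : ‖act k⁻¹ v i‖ ≤ ‖d i‖ * ‖act (k * dg d hd * k')⁻¹ v‖ := by
  have h1 : act k⁻¹ v = act (dg d hd) (act k' (act (k * dg d hd * k')⁻¹ v)) := by
    rw [← act_mul, ← act_mul]
    congr 2
    group
  rw [h1, act_dg, norm_mul]
  refine mul_le_mul_of_nonneg_left ((norm_le_pi_norm _ i).trans ?_) (norm_nonneg _)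
  simpa using act_le zero_le_one hk'.1 _

/-- And conversely. -/
lemma le_coord {k k' : GL (Fin n) K} {d : Fin n → K} {hd : ∀ i, d i ≠ 0} (hk' : Kc 1 k')
    (v : Fin n → K) {c : ℝ} (hc : 0 ≤ c) (h : ∀ i, ‖act k⁻¹ v i‖ ≤ ‖d i‖ * c) :
    ‖act (k * dg d hd * k')⁻¹ v‖ ≤ c := by
  rw [mul_inv_rev, mul_inv_rev, act_mul, act_mul, dg_inv]
  refine (act_le zero_le_one hk'.2 _).trans ?_
  rw [one_mul]
  refine (pi_norm_le_iff_of_nonneg hc).2 fun i => ?_
  rw [act_dg, norm_mul, norm_inv, inv_mul_le_iff₀ (norm_pos_iff.2 (hd i))]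
  exact h i

lemma box_le {Q : ℝ} (hQ : 1 < Q) {s : ℕ} {ψ : ℤ → ℤ} (h1 : ∀ i j, i ≤ j → ψ i ≤ ψ j)
    (h2 : ∀ i j, i ≤ j → ψ j - j ≤ ψ i - i) {k k' l l' : GL (Fin n) K} {d e : Fin n → K}
    {hd : ∀ i, d i ≠ 0} {he : ∀ i, e i ≠ 0} (hk : Kc 1 k) (hk' : Kc 1 k') (hl : Kc 1 l)
    (hl' : Kc 1 l') {a b : Fin n → ℤ} (ha : ∀ i, Q ^ a i ≤ ‖d i‖) (hb : ∀ i, ‖e i‖ ≤ Q ^ (b i + 1))
    (h3 : ∀ i, ψ (a i - (s + 1 : ℕ)) = ψ (a i))
    (h4 : ∀ i j, ‖((l * dg e he * l')⁻¹ * (k * dg d hd * k')).val i j‖ ≤ Q ^ s) :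
    box k (fun i => Q ^ ψ (a i)) (fun _ => zpow_pos (by linarith) _) ≤
      box l (fun i => Q ^ ψ (b i)) fun _ => zpow_pos (by linarith) _ := by
  have hQ0 : 0 < Q := by linarith
  rw [le_iff]
  intro v hv
  rw [mem_box] at hv
  have hv' : v = ∑ i, act k (Pi.single i (act k⁻¹ v i)) := by
    rw [← map_sum, univ_sum_single, act_act_inv]
  rw [hv']
  refine sum_mem fun i _ => (mem_box _ _ _ _).2 fun j => ?_
  set u := act k (Pi.single i (act k⁻¹ v i)) with hu
  have h5 : ‖u‖ ≤ Q ^ ψ (a i) := by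
    refine (act_le zero_le_one hk.1 _).trans ?_
    rw [one_mul, Pi.norm_single]
    exact hv i
  have h6 : ‖act (k * dg d hd * k')⁻¹ u‖ ≤ Q ^ (ψ (a i) - a i) := by
    refine le_coord hk' u (by positivity) fun m => ?_
    rw [hu, act_inv_act]
    rcases eq_or_ne m i with rfl | hm
    · rw [Pi.single_eq_same]
      refine (hv m).trans (le_trans (le_of_eq ?_) (mul_le_mul_of_nonneg_right (ha m) (by positivity)))
      rw [← zpow_add₀ hQ0.ne']
      congr 1
      ring
    · rw [Pi.single_eq_of_ne hm, norm_zero]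
      positivity
  have h7 : ‖act (l * dg e he * l')⁻¹ u‖ ≤ Q ^ s * Q ^ (ψ (a i) - a i) := by
    have := act_le (by positivity) h4 (act (k * dg d hd * k')⁻¹ u)
    rw [act_mul, act_act_inv] at this
    exact this.trans (mul_le_mul_of_nonneg_left h6 (by positivity))
  rcases le_total (a i - (s + 1 : ℕ)) (b j) with h | h
  · refine (norm_le_pi_norm _ j).trans ((act_le zero_le_one hl.2 _).trans ?_)
    rw [one_mul]
    exact h5.trans (zpow_le_zpow_right₀ hQ.le (h3 i ▸ h1 _ _ h))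
  · refine (coord_le (hd := he) hl' u j).trans
      ((mul_le_mul (hb j) h7 (norm_nonneg _) (by positivity)).trans ?_)
    rw [← zpow_natCast, ← zpow_add₀ hQ0.ne', ← zpow_add₀ hQ0.ne']
    refine zpow_le_zpow_right₀ hQ.le ?_
    have := h2 _ _ h
    rw [h3 i] at this
    push_cast at this
    linarith

end LOC

open LOC in
theorem stLOC (hI : St_ICD) : St_LOC := by
  classical
  intro K _ _ n ϖ h0 h1 s
  choose k k' d hd hk hk' hx using hI K n
  have hp : 0 < ‖ϖ‖ := norm_pos_iff.2 h0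
  set Q : ℝ := ‖ϖ‖⁻¹ with hQd
  have hQ : 1 < Q := (one_lt_inv₀ hp).2 h1
  have hQ0 : 0 < Q := by linarith
  choose a ha using fun (x : GL (Fin n) K) (i : Fin n) =>
    exists_mem_Ico_zpow (norm_pos_iff.2 (hd x i)) hQ
  set T : ℕ := 2 * n * (s + 1) with hT
  refine ⟨fun x => (Fintype.piFinset fun _ : Fin n => range (T + 2)).image fun j =>
    box (k x) (fun i => Q ^ (a x i + (j i : ℕ))) fun _ => zpow_pos hQ0 _, fun x => ?_,
    fun x y hxy => ?_⟩
  · exact card_image_le.trans (by simp)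
  obtain ⟨ψ, h2, h3, h4, h5, h6⟩ := exists_psi (Sum.elim (a x) (a y)) (s + 1)
  have hT' : Fintype.card (Fin n ⊕ Fin n) * (s + 1) = T := by simp [hT, two_mul]
  rw [hT'] at h5
  have key : ∀ z : GL (Fin n) K,
      box (k z) (fun i => Q ^ ψ (a z i)) (fun _ => zpow_pos hQ0 _) ∈
        ((Fintype.piFinset fun _ : Fin n => range (T + 2)).image fun j =>
          box (k z) (fun i => Q ^ (a z i + (j i : ℕ))) fun _ => zpow_pos hQ0 _) ∧
      z • std K n ≤ box (k z) (fun i => Q ^ ψ (a z i)) (fun _ => zpow_pos hQ0 _) ∧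
      ∀ v ∈ (box (k z) (fun i => Q ^ ψ (a z i)) fun _ => zpow_pos hQ0 _).1,
        ϖ ^ (T + 1) • v ∈ (z • std K n).1 := fun z => by
    refine ⟨mem_image.2 ⟨fun i => (ψ (a z i) - a z i).toNat, Fintype.mem_piFinset.2 fun i => ?_,
      ?_⟩, (le_iff _ _).2 fun v hv => (mem_box _ _ _ _).2 fun i => ?_, fun v hv => ?_⟩
    · have := h5 (a z i)
      rw [mem_range]
      omega
    · congr 1
      funext i
      congr 1
      have := h4 (a z i)
      beta_reduce
      omega
    · rw [mem_smul, mem_std, hx z] at hv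
      refine (coord_le (hd := hd z) (hk' z) v i).trans ?_
      refine (mul_le_of_le_one_right (norm_nonneg _) hv).trans ((ha z i).2.le.trans ?_)
      exact zpow_le_zpow_right₀ hQ.le (h4 _)
    · rw [mem_box] at hv
      rw [mem_smul, mem_std, hx z]
      refine le_coord (hk' z) _ zero_le_one fun i => ?_
      rw [act_smul, Pi.smul_apply, norm_smul, norm_pow, mul_one, ← inv_inv ‖ϖ‖, ← hQd, inv_pow,
        ← zpow_natCast, ← zpow_neg]
      refine (mul_le_mul_of_nonneg_left (hv i) (by positivity)).trans (le_trans ?_ (ha z i).1)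
      rw [← zpow_add₀ hQ0.ne']
      refine zpow_le_zpow_right₀ hQ.le ?_
      have := h5 (a z i)
      push_cast
      linarith
  have heq : box (k x) (fun i => Q ^ ψ (a x i)) (fun _ => zpow_pos hQ0 _) =
      box (k y) (fun i => Q ^ ψ (a y i)) fun _ => zpow_pos hQ0 _ := by
    apply le_antisymm
    · refine box_le hQ h2 h3 (hd := hd x) (he := hd y) (hk x) (hk' x) (hk y) (hk' y)
        (fun i => (ha x i).1) (fun i => (ha y i).2.le) (fun i => h6 (Sum.inl i)) fun i j => ?_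
      rw [← hx x, ← hx y]
      simpa using hxy.2 i j
    · refine box_le hQ h2 h3 (hd := hd y) (he := hd x) (hk y) (hk' y) (hk x) (hk' x)
        (fun i => (ha y i).1) (fun i => (ha x i).2.le) (fun i => h6 (Sum.inr i)) fun i j => ?_
      rw [← hx x, ← hx y]
      exact hxy.1 i j
  refine ⟨_, (key x).1, ?_, (key x).2.1, ?_, (key x).2.2, ?_⟩ <;> rw [heq]
  exacts [(key y).1, (key y).2.1, (key y).2.2]

end Pool.Agent.Lib.SDP
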