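import Pool.Agent.Lib.SDP.Blue
import Pool.Agent.Lib.SD.TOP

/-! Stabilisers of lattices. -/

noncomputable section

open Finset

namespace Pool.Agent.Lib.SDP

open Pool.Agent.Lib.SD

namespace STAB

variable {K : Type} [NontriviallyNormedField K] {n : ℕ} {x : Lat K n} {g : GL (Fin n) K}

lemma act_mem (h : g • x = x) {v : Fin n → K} (hv : v ∈ x.1) : act g v ∈ x.1 := by
  rw [← h, mem_smul, act_inv_act]
  exact hv

lemma exists_single (x : Lat K n) : ∃ c : K, c ≠ 0 ∧ ∀ j, Pi.single j c ∈ x.1 := by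
  obtain ⟨ρ, h1, h2⟩ := x.2.op
  obtain ⟨c, h3, h4⟩ := NormedField.exists_norm_lt K h1
  exact ⟨c, norm_pos_iff.1 h3, fun j => h2 _ (by rw [Pi.norm_single]; exact h4.le)⟩

lemma act_single (g : GL (Fin n) K) (c : K) (i j : Fin n) :
    act g (Pi.single j c) i = g.val i j * c := by
  simp [act_apply]

lemma exists_kc (x : Lat K n) : ∃ C : ℝ, ∀ g : GL (Fin n) K, g • x = x → Kc C g := by
  obtain ⟨c, h1, h2⟩ := exists_single x
  obtain ⟨R, h3⟩ := x.2.bd
  have h4 : ∀ g : GL (Fin n) K, g • x = x → ∀ i j, ‖g.val i j‖ ≤ R / ‖c‖ := fun g hg i j => by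
    rw [le_div_iff₀ (norm_pos_iff.2 h1), ← norm_mul, ← act_single]
    exact (norm_le_pi_norm _ i).trans (h3 _ (act_mem hg (h2 j)))
  exact ⟨R / ‖c‖, fun g hg => ⟨h4 g hg, h4 g⁻¹ (inv_smul_eq_iff.2 hg.symm)⟩⟩

/-- `g` acts trivially on `x` modulo `a x`. -/
def P (x : Lat K n) (g : GL (Fin n) K) (a : K) : Prop :=
  ∀ v ∈ x.1, ∃ w ∈ x.1, act g v - v = a • w

lemma P.pow {a : K} (hg : g • x = x) (h : P x g a) (i : ℕ) : P x (g ^ i) a := by
  induction i with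
  | zero => exact fun v _ => ⟨0, zero_mem _, by simp [act_one]⟩
  | succ i ih =>
    intro v hv
    obtain ⟨w, h1, h2⟩ := h v hv
    obtain ⟨w', h3, h4⟩ := ih _ (act_mem hg hv)
    exact ⟨w' + w, add_mem h3 h1, by rw [pow_succ, act_mul, smul_add, ← h2, ← h4]; abel⟩

lemma P.step {a b : K} {l : ℕ} (hg : g • x = x) (hl : g ^ l = 1) (h0 : (l : K) ≠ 0)
    (hb : P x g b) (ha : P x g a) : P x g (b / l * a) := by
  intro v hv
  obtain ⟨w, h1, h2⟩ := ha v hv
  choose u h3 h4 using fun i : ℕ => hb.pow hg i w h1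
  refine ⟨-∑ i ∈ range l, u i, neg_mem (sum_mem fun i _ => h3 i), ?_⟩
  have h5 : ∑ i ∈ range l, act (g ^ i) (act g v - v) = 0 := by
    have h6 : ∀ i, act (g ^ i) (act g v - v) = act (g ^ (i + 1)) v - act (g ^ i) v := fun i => by
      rw [map_sub, pow_succ, act_mul]
    simp only [h6]
    rw [sum_range_sub fun i => act (g ^ i) v, hl, pow_zero, sub_self]
  have h6 : ∀ i, act (g ^ i) (act g v - v) = (a * b) • u i + a • w := fun i => by
    rw [h2, act_smul, mul_smul, ← h4, smul_sub, sub_add_cancel]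
  simp only [h6, sum_add_distrib, ← smul_sum, sum_const, card_range] at h5
  rw [h2]
  refine smul_right_injective _ h0 ?_
  change (l : K) • a • w = (l : K) • (b / l * a) • -∑ i ∈ range l, u i
  rw [smul_smul (l : K) (b / l * a), ← mul_assoc, mul_div_cancel₀ _ h0, smul_neg, mul_comm b,
    eq_neg_iff_add_eq_zero, add_comm, ← h5, ← Nat.cast_smul_eq_nsmul K, smul_comm]

lemma P.eq_one {b : K} {l : ℕ} (hg : g • x = x) (hl : g ^ l = 1) (h0 : ‖b‖ < ‖(l : K)‖)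
    (hb : P x g b) : g = 1 := by
  have h1 : 0 < ‖(l : K)‖ := (norm_nonneg _).trans_lt h0
  have h2 : ∀ j : ℕ, P x g ((b / l) ^ j * b) := fun j => by
    induction j with
    | zero => simpa using hb
    | succ j ih =>
      rw [pow_succ', mul_assoc]
      exact hb.step hg hl (norm_pos_iff.1 h1) ih
  obtain ⟨R, h3⟩ := x.2.bd
  have h4 : ∀ v ∈ x.1, act g v = v := fun v hv => by
    have h5 : Filter.Tendsto (fun j : ℕ => ‖b / l‖ ^ j * (‖b‖ * R)) Filter.atTop (nhds 0) := by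
      simpa using (tendsto_pow_atTop_nhds_zero_of_lt_one (norm_nonneg (b / l))
        (by rwa [norm_div, div_lt_one h1])).mul_const (‖b‖ * R)
    refine sub_eq_zero.1 (norm_le_zero_iff.1 (ge_of_tendsto' h5 fun j => ?_))
    obtain ⟨w, h6, h7⟩ := h2 j v hv
    rw [h7, norm_smul, norm_mul, norm_pow, mul_assoc]
    gcongr
    exact h3 w h6
  obtain ⟨c, h5, h6⟩ := exists_single x
  refine Units.ext (Matrix.ext fun i j => mul_right_cancel₀ h5 ?_)
  rw [← act_single, ← act_single, h4 _ (h6 j), act_one]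

lemma exists_delta (K : Type) [NontriviallyNormedField K] [IsUltrametricDist K] [CharZero K] :
    ∃ δ : ℝ, 0 < δ ∧ δ ≤ 1 ∧ ∀ l : ℕ, l.Prime → δ ≤ ‖(l : K)‖ := by
  by_cases h : ∀ l : ℕ, l.Prime → 1 ≤ ‖(l : K)‖
  · exact ⟨1, one_pos, le_rfl, h⟩
  push Not at h
  obtain ⟨p, hp, h1⟩ := h
  refine ⟨‖(p : K)‖, norm_pos_iff.2 (Nat.cast_ne_zero.2 hp.ne_zero), h1.le, fun l hl => ?_⟩
  by_cases e : p = l
  · rw [e]
  by_contra h2
  obtain ⟨a, b, h3⟩ := Nat.isCoprime_iff_coprime.2 ((Nat.coprime_primes hp hl).2 e)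
  have h4 : (a : K) * p + b * l = 1 := by exact_mod_cast congrArg (Int.cast : ℤ → K) h3
  have h5 := IsUltrametricDist.norm_add_le_max ((a : K) * p) (b * l)
  rw [h4, norm_one, norm_mul, norm_mul] at h5
  have h6 := mul_le_of_le_one_left (norm_nonneg (p : K))
    (IsUltrametricDist.norm_intCast_le_one K a)
  have h7 := mul_le_of_le_one_left (norm_nonneg (l : K))
    (IsUltrametricDist.norm_intCast_le_one K b)
  rcases le_max_iff.1 h5 with h8 | h8 <;> linarith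

lemma P.eq_one' {b : K} (hb0 : ∀ l : ℕ, l.Prime → ‖b‖ < ‖(l : K)‖) (hg : g • x = x)
    (ho : IsOfFinOrder g) (hb : P x g b) : g = 1 := by
  by_contra h
  have h1 : orderOf g ≠ 1 := fun e => h (orderOf_eq_one_iff.1 e)
  have h2 := orderOf_pow_orderOf_div ho.orderOf_pos.ne' (Nat.minFac_dvd (orderOf g))
  have h3 : g ^ (orderOf g / (orderOf g).minFac) • x = x :=
    (MulAction.stabilizer _ x).pow_mem hg _
  have h4 := (hb.pow hg _).eq_one h3 (by
    have := pow_orderOf_eq_one (g ^ (orderOf g / (orderOf g).minFac))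
    rwa [h2] at this) (hb0 _ (Nat.minFac_prime h1))
  rw [h4, orderOf_one] at h2
  exact (Nat.minFac_prime h1).ne_one h2.symm

lemma inj {b : K} (h0 : b ≠ 0) {y : AddSubgroup (Fin n → K)} (hy : ∀ v, v ∈ y ↔ b⁻¹ • v ∈ x.1)
    (hb : ∀ l : ℕ, l.Prime → ‖b‖ < ‖(l : K)‖) {F : Subgroup (GL (Fin n) K)} [Finite F]
    (hx : ∀ g ∈ F, g • x = x) :
    Function.Injective fun (g : F) (q : x.1 ⧸ y.addSubgroupOf x.1) =>
      ((⟨act g.1 q.out.1, act_mem (hx g g.2) q.out.2⟩ : x.1) : x.1 ⧸ y.addSubgroupOf x.1) := by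
  intro g h e
  have hg := hx _ (h⁻¹ * g).2
  have ho : IsOfFinOrder (h⁻¹ * g).1 :=
    F.subtype.isOfFinOrder (x := h⁻¹ * g) (isOfFinOrder_of_finite (h⁻¹ * g))
  have key : P x (h⁻¹ * g).1 b := by
    intro v hv
    obtain ⟨⟨⟨w, hw0⟩, hw⟩, h11⟩ := QuotientAddGroup.mk_out_eq_add (y.addSubgroupOf x.1) ⟨v, hv⟩
    have h12 := QuotientAddGroup.eq.1 (congrFun e (QuotientAddGroup.mk ⟨v, hv⟩)).symm
    rw [AddSubgroup.mem_addSubgroupOf, hy] at h12 hw
    simp only [h11] at h12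
    have h13 : b⁻¹ • (-act h.1 (v + w) + act g.1 (v + w)) ∈ x.1 := h12
    have h14 : b⁻¹ • w ∈ x.1 := hw
    refine ⟨_, add_mem (sub_mem (act_mem (hx _ h⁻¹.2) h13) (act_mem hg h14)) h14, ?_⟩
    simp only [Subgroup.coe_mul, Subgroup.coe_inv, act_smul, act_mul, map_add, map_neg,
      act_inv_act, smul_add, smul_sub, smul_inv_smul₀ h0]
    abel
  have h1 : h⁻¹ * g = 1 := Subtype.ext (key.eq_one' hb hg ho)
  exact (inv_mul_eq_one.1 h1).symm

end STAB

open STAB in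
theorem stSTAB (hI : St_IDX) : St_STAB := by
  refine ⟨fun K _ _ _ n Γ _ x => ?_, fun K _ _ _ _ n => ?_⟩
  · obtain ⟨C, hC⟩ := exists_kc x
    exact (tendsto_cofinite_cocompact_iff.1 (Γ.tendsto_coe_cofinite_of_discrete
      (SetLike.isDiscrete_iff_discreteTopology.2 inferInstance)) _
      (TOP.isCompact_kc C)).subset fun g hg => hC g hg
  obtain ⟨δ, h1, h2, h3⟩ := exists_delta K
  obtain ⟨b, h4, h5⟩ := NormedField.exists_norm_lt K h1
  have h0 : b ≠ 0 := norm_pos_iff.1 h4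
  obtain ⟨h6, -, h7⟩ := hI K n
  obtain ⟨D, hD⟩ := h7 b h0 (by linarith)
  refine ⟨D ^ D, fun x F hF hx => ?_⟩
  obtain ⟨y, hy⟩ : ∃ y : Lat K n, ∀ v, v ∈ y.1 ↔ b⁻¹ • v ∈ x.1 := by
    refine ⟨(dg (fun _ => b) (fun _ => h0) : GL (Fin n) K) • x, fun v => ?_⟩
    have : act (dg (fun _ => b) fun _ => h0 : GL (Fin n) K)⁻¹ v = b⁻¹ • v :=
      funext fun i => Matrix.mulVec_diagonal (fun _ => b⁻¹) v i
    rw [mem_smul, this]
  have h8 : Nat.card (x.1 ⧸ y.1.addSubgroupOf x.1) ≤ D :=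
    (hD x y 1 fun v hv => by rwa [hy, pow_one, inv_smul_smul₀ h0]).trans (pow_one D).le
  have h9 : Nat.card (x.1 ⧸ y.1.addSubgroupOf x.1) ≠ 0 := h6 x y
  have := Nat.finite_of_card_ne_zero h9
  refine (Nat.card_le_card_of_injective _
    (inj h0 hy (fun l hl => h5.trans_le (h3 l hl)) hx)).trans ?_
  rw [Nat.card_fun]
  exact (Nat.pow_le_pow_left h8 _).trans (Nat.pow_le_pow_right (by omega) h8)

end Pool.Agent.Lib.SDP
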